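import Mathlib

/-!
# Triangular subalgebras of UHF algebras

Definitions for the question whether condition (ii) implies condition (i).
-/

open MeasureTheory WeakDual

namespace Pool.Agent.H180.TF

/-- A presentation of the unital C*-algebra `A` as a UHF algebra: an increasing sequence of
finite-dimensional factors (copies of full matrix algebras, with the unit of `A`) whose union is
dense. -/
structure UHF (A : Type*) [CStarAlgebra A] where
  /-- the factors -/
  lev : ℕ → StarSubalgebra ℂ A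
  mono : Monotone lev
  factor : ∀ n, ∃ k, 0 < k ∧ Nonempty (lev n ≃⋆ₐ[ℂ] Matrix (Fin k) (Fin k) ℂ)
  dense : Dense (⋃ n, (lev n : Set A))

variable {A : Type*} [CStarAlgebra A]

/-- The diagonal `T ∩ T*`. -/
def diagonal (T : Subalgebra ℂ A) : StarSubalgebra ℂ A where
  carrier := {a | a ∈ T ∧ star a ∈ T}
  mul_mem' := by
    rintro a b ⟨ha, ha'⟩ ⟨hb, hb'⟩
    exact ⟨mul_mem ha hb, by rw [star_mul]; exact mul_mem hb' ha'⟩
  add_mem' := by
    rintro a b ⟨ha, ha'⟩ ⟨hb, hb'⟩
    exact ⟨add_mem ha hb, by rw [star_add]; exact add_mem ha' hb'⟩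
  algebraMap_mem' c := ⟨algebraMap_mem T c, by
    rw [← algebraMap_star_comm]
    exact algebraMap_mem T _⟩
  star_mem' := by
    rintro a ⟨ha, ha'⟩
    exact ⟨ha', by rwa [star_star]⟩

/-- `T` is a TAF subalgebra: it is norm closed and its diagonal `D = T ∩ T*` is abelian and
`D ∩ lev n` is maximal abelian in `lev n` for all `n`. -/
structure IsTAF (U : UHF A) (T : Subalgebra ℂ A) : Prop where
  closed : IsClosed (T : Set A)
  comm : ∀ a ∈ diagonal T, ∀ b ∈ diagonal T, a * b = b * a
  masa : ∀ n, ∀ a ∈ U.lev n,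
    (∀ b ∈ diagonal T, b ∈ U.lev n → a * b = b * a) → a ∈ diagonal T

/-- `T` is strongly maximal: `T + T*` is dense. -/
def StronglyMaximal (T : Subalgebra ℂ A) : Prop := Dense {a : A | ∃ b ∈ T, ∃ c ∈ T, a = b + star c}

/-- The spectrum `X` of the diagonal. -/
abbrev Spec (T : Subalgebra ℂ A) : Type _ := characterSpace ℂ (diagonal T)

/-- The Borel sets of `X`. -/
noncomputable instance instMeasurableSpaceSpec (T : Subalgebra ℂ A) : MeasurableSpace (Spec T) := borel _

instance instBorelSpaceSpec (T : Subalgebra ℂ A) : BorelSpace (Spec T) := ⟨rfl⟩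

/-- `v` is a partial isometry with `v D v* ⊆ D` and `v* D v ⊆ D`. -/
def Normalizes (T : Subalgebra ℂ A) (v : A) : Prop :=
  v * star v * v = v ∧ (∀ d ∈ diagonal T, v * d * star v ∈ diagonal T) ∧
    ∀ d ∈ diagonal T, star v * d * v ∈ diagonal T

/-- `(x, y)` lies in the graph of the partial homeomorphism induced by `v`: `x(d) = y(v* d v)` for
all `d` in the diagonal (for `d = 1` this contains `y(v* v) = 1`). -/
def InGraph (T : Subalgebra ℂ A) (v : A) (x y : Spec T) : Prop :=
  ∀ d e : diagonal T, (e : A) = star v * d * v → x d = y e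

/-- The order: `(x, y) ∈ P`. -/
def PLe (T : Subalgebra ℂ A) (x y : Spec T) : Prop :=
  ∃ v ∈ T, Normalizes T v ∧ InGraph T v x y

/-- Decreasing sets. -/
def IsDecr (T : Subalgebra ℂ A) (E : Set (Spec T)) : Prop := ∀ y ∈ E, ∀ x, PLe T x y → x ∈ E

/-- Increasing sets. -/
def IsIncr (T : Subalgebra ℂ A) (E : Set (Spec T)) : Prop := ∀ x ∈ E, ∀ y, PLe T x y → y ∈ E

/-- The smallest decreasing set containing `S`. -/
def decHull (T : Subalgebra ℂ A) (S : Set (Spec T)) : Set (Spec T) :=
  ⋂₀ {E | S ⊆ E ∧ IsDecr T E}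

/-- The smallest increasing set containing `S`. -/
def incHull (T : Subalgebra ℂ A) (S : Set (Spec T)) : Set (Spec T) :=
  ⋂₀ {E | S ⊆ E ∧ IsIncr T E}

/-- The clopen subset of `X` given by a projection of the diagonal. -/
def hat (T : Subalgebra ℂ A) (e : diagonal T) : Set (Spec T) := {y | y e = 1}

/-- `e` is a decreasing sequence of projections of the diagonal with `⋂ ê_n = {x}`. -/
structure IsNest (T : Subalgebra ℂ A) (x : Spec T) (e : ℕ → diagonal T) : Prop where
  proj : ∀ n, IsStarProjection (e n)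
  anti : ∀ n, e n * e (n + 1) = e (n + 1)
  inter : ⋂ n, hat T (e n) = {x}

/-- The set `E_x`, computed from a nest of `x`. -/
def Eset (T : Subalgebra ℂ A) (e : ℕ → diagonal T) : Set (Spec T) := ⋂ n, decHull T (hat T (e n))

/-- The set `J_x`, computed from a nest of `x`. -/
def Jset (T : Subalgebra ℂ A) (e : ℕ → diagonal T) : Set (Spec T) := ⋂ n, incHull T (hat T (e n))

/-- `μ` is the probability measure on `X` given by the normalized trace: for `d` in the diagonal
and in `lev n`, the integral of `d` is the normalized trace of `d` in the matrix algebra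
`lev n`. -/
def IsTraceMeasure (U : UHF A) (T : Subalgebra ℂ A) (μ : Measure (Spec T)) : Prop :=
  IsProbabilityMeasure μ ∧
    ∀ (n k : ℕ) (φ : U.lev n ≃⋆ₐ[ℂ] Matrix (Fin k) (Fin k) ℂ) (d : diagonal T)
      (hd : (d : A) ∈ U.lev n), ∫ x : Spec T, x d ∂μ = (φ ⟨d, hd⟩).trace / k

/-- Condition (i). -/
def CondI (T : Subalgebra ℂ A) (μ : Measure (Spec T)) : Prop :=
  ∀ x e, IsNest T x e → μ (Eset T e ∩ Jset T e) = 0

/-- Condition (ii). -/
def CondII (T : Subalgebra ℂ A) (μ : Measure (Spec T)) : Prop :=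
  ∀ x y, PLe T x y → x ≠ y → ∀ e e', IsNest T x e → IsNest T y e' →
    μ (Eset T e) < μ (Eset T e') ∨ ∃ C : Set (Spec T), IsClopen C ∧ IsIncr T C ∧ y ∈ C ∧ x ∉ C

end Pool.Agent.H180.TF
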