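import Pool.Agent.H180.TF.Paths
import Pool.Agent.H180.TF.Defs
import Pool.Agent.H180.UP.Emb

/-! The matrix units of the levels and the triangular algebra. -/

open Finset

namespace Pool.Agent.H180.TF

open Pool.Agent.Helper741.UHF Pool.Agent.H180.UP

/-! ### Matrix units give homomorphisms -/

section hom

variable {ι A : Type*} [Fintype ι] [DecidableEq ι] [CStarAlgebra A] {U : ι → ι → A}

/-- the unital homomorphism defined by a system of matrix units -/
noncomputable def homU (h : MUnits U) : Matrix ι ι ℂ →⋆ₐ[ℂ] A where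
  toFun M := ∑ a, ∑ b, M a b • U a b
  map_one' := by
    have h1 : ∀ a : ι, ∑ b : ι, (1 : Matrix ι ι ℂ) a b • U a b = U a a := by
      intro a
      rw [Finset.sum_eq_single a]
      · simp
      · intro b _ hb
        rw [Matrix.one_apply_ne hb.symm, zero_smul]
      · intro hh
        exact absurd (Finset.mem_univ _) hh
    rw [Finset.sum_congr rfl fun a _ => h1 a, ← h.one]
  map_mul' M N := by
    have h1 : (∑ a, ∑ b, M a b • U a b) * (∑ c, ∑ d, N c d • U c d) =
        ∑ a : ι, ∑ b : ι, ∑ d : ι, (M a b * N b d) • U a d := by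
      rw [Finset.sum_mul]
      refine Finset.sum_congr rfl fun a _ => ?_
      rw [Finset.sum_mul]
      refine Finset.sum_congr rfl fun b _ => ?_
      rw [Finset.mul_sum, Finset.sum_eq_single b]
      · rw [Finset.mul_sum]
        refine Finset.sum_congr rfl fun d _ => ?_
        rw [smul_mul_smul_comm, h.mul, if_pos rfl]
      · intro c _ hc
        rw [Finset.mul_sum]
        refine Finset.sum_eq_zero fun d _ => ?_
        rw [smul_mul_smul_comm, h.mul, if_neg hc.symm, smul_zero]
      · intro hh
        exact absurd (Finset.mem_univ _) hh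
    rw [h1]
    refine Finset.sum_congr rfl fun a _ => ?_
    rw [Finset.sum_comm]
    refine Finset.sum_congr rfl fun d _ => ?_
    rw [Matrix.mul_apply, Finset.sum_smul]
  map_zero' := by simp
  map_add' M N := by
    simp only [Matrix.add_apply, add_smul, Finset.sum_add_distrib]
  commutes' r := by
    have h1 : ∀ a : ι, ∑ b : ι, (algebraMap ℂ (Matrix ι ι ℂ) r) a b • U a b = r • U a a := by
      intro a
      rw [Finset.sum_eq_single a]
      · simp [Matrix.algebraMap_matrix_apply]
      · intro b _ hb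
        rw [Matrix.algebraMap_matrix_apply, if_neg hb.symm, zero_smul]
      · intro hh
        exact absurd (Finset.mem_univ _) hh
    rw [Finset.sum_congr rfl fun a _ => h1 a, ← Finset.smul_sum, h.one,
      Algebra.algebraMap_eq_smul_one]
  map_star' M := by
    simp only [star_sum, star_smul, h.str, Matrix.star_apply]
    rw [Finset.sum_comm]

theorem homU_apply (h : MUnits U) (M : Matrix ι ι ℂ) : homU h M = ∑ a, ∑ b, M a b • U a b := rfl

theorem homU_single (h : MUnits U) (a b : ι) : homU h (Matrix.single a b 1) = U a b := by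
  rw [homU_apply, Finset.sum_eq_single a]
  · rw [Finset.sum_eq_single b]
    · simp
    · intro b' _ hb
      rw [Matrix.single_apply, if_neg (fun hh => hb hh.2.symm), zero_smul]
    · intro hh
      exact absurd (Finset.mem_univ _) hh
  · intro a' _ ha
    refine Finset.sum_eq_zero fun b' _ => ?_
    rw [Matrix.single_apply, if_neg (fun hh => ha hh.1.symm), zero_smul]
  · intro hh
    exact absurd (Finset.mem_univ _) hh

theorem corner (h : MUnits U) (M : Matrix ι ι ℂ) (a b : ι) :
    U a a * homU h M * U b b = M a b • U a b := by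
  have h1 : U a a * homU h M * U b b = homU h (Matrix.single a a 1 * M * Matrix.single b b 1) := by
    rw [map_mul, map_mul, homU_single, homU_single]
  have h2 : Matrix.single a a (1 : ℂ) * M * Matrix.single b b 1 = M a b • Matrix.single a b 1 := by
    rw [Matrix.single_mul_mul_single]
    simp
  rw [h1, h2, map_smul, homU_single]

theorem mu_ne [Nontrivial A] (h : MUnits U) (a b : ι) : U a b ≠ 0 := by
  intro h0
  have h1 : ∀ c, U c c = 0 := by
    intro c
    have : U c c = U c a * U a b * U b c := by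
      rw [h.mul, if_pos rfl, h.mul, if_pos rfl]
    rw [this, h0, mul_zero, zero_mul]
  have h2 := h.one
  rw [Finset.sum_eq_zero fun c _ => h1 c] at h2
  exact zero_ne_one h2

theorem mu_norm [Nontrivial A] (h : MUnits U) (a b : ι) : ‖U a b‖ = 1 := by
  refine le_antisymm (h.norm_le a b) ?_
  have h1 : ‖U a b‖ = ‖U a b * U b a * U a b‖ := by
    rw [h.mul, if_pos rfl, h.mul, if_pos rfl]
  have h2 : 0 < ‖U a b‖ := norm_pos_iff.mpr (mu_ne h a b)
  have h3 : ‖U a b * U b a * U a b‖ ≤ ‖U a b‖ * ‖U b a‖ * ‖U a b‖ :=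
    (norm_mul_le _ _).trans (by gcongr; exact norm_mul_le _ _)
  have h4 := h.norm_le b a
  have h5 := norm_nonneg (U b a)
  by_contra hcon
  push Not at hcon
  rw [← h1] at h3
  have h6 : ‖U a b‖ * ‖U b a‖ * ‖U a b‖ ≤ ‖U a b‖ * 1 * ‖U a b‖ := by gcongr
  nlinarith

theorem homU_injective [Nontrivial A] (h : MUnits U) : Function.Injective (homU h) := by
  rw [injective_iff_map_eq_zero]
  intro M hM
  ext a b
  have := corner h M a b
  rw [hM, mul_zero, zero_mul] at this
  exact ((smul_eq_zero.mp this.symm).resolve_right (mu_ne h a b))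

theorem norm_entry_le [Nontrivial A] (h : MUnits U) (M : Matrix ι ι ℂ) (a b : ι) :
    ‖M a b‖ ≤ ‖homU h M‖ := by
  have h1 : ‖M a b‖ = ‖U a a * homU h M * U b b‖ := by
    rw [corner, norm_smul, mu_norm h, mul_one]
  rw [h1]
  calc ‖U a a * homU h M * U b b‖ ≤ ‖U a a‖ * ‖homU h M‖ * ‖U b b‖ :=
        (norm_mul_le _ _).trans (by gcongr; exact norm_mul_le _ _)
    _ = ‖homU h M‖ := by rw [mu_norm h, mu_norm h, one_mul, mul_one]

end hom

/-! ### The levels -/

/-- the bijection between `[m l] × [r l]` and `[m (l + 1)]` -/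
noncomputable def posEquiv (l : ℕ) : Fin (m l) × Fin (r l) ≃ Fin (m (l + 1)) :=
  Equiv.ofBijective (fun p => (⟨pos l p.1 p.2, pos_lt_m p.1.2 p.2.2⟩ : Fin (m (l + 1)))) (by
    rw [Fintype.bijective_iff_injective_and_card]
    constructor
    · rintro ⟨i, c⟩ ⟨i', c'⟩ h
      obtain ⟨h1, h2⟩ := pos_inj i.2 c.2 i'.2 c'.2 (congrArg Fin.val h)
      exact Prod.ext (Fin.ext h1) (Fin.ext h2)
    · rw [Fintype.card_prod, Fintype.card_fin, Fintype.card_fin, Fintype.card_fin, m_succ])

theorem posEquiv_val (l : ℕ) (p : Fin (m l) × Fin (r l)) : (posEquiv l p : ℕ) = pos l p.1 p.2 :=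
  rfl

variable {A : Type} [CStarAlgebra A]

/-- the matrix units of level `l` -/
noncomputable def Un (f : ℕ → ℕ → ℕ → A) : (l : ℕ) → Fin (m l) → Fin (m l) → A
  | 0, _, _ => 1
  | l + 1, p, q => Un f l ((posEquiv l).symm p).1 ((posEquiv l).symm q).1 *
      f l ((posEquiv l).symm p).2 ((posEquiv l).symm q).2

variable {f : ℕ → ℕ → ℕ → A}

theorem Un_succ (l : ℕ) (p q : Fin (m l) × Fin (r l)) :
    Un f (l + 1) (posEquiv l p) (posEquiv l q) = Un f l p.1 q.1 * f l p.2 q.2 := by
  simp [Un]

theorem Un_commute (h : MUSys r f) (l j : ℕ) (hj : l ≤ j) (p q : Fin (m l)) (a b : ℕ) :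
    Commute (f j a b) (Un f l p q) := by
  induction l with
  | zero => exact Commute.one_right _
  | succ l ih =>
    exact (ih (by omega) _ _).mul_right (h.comm j l (by omega) _ _ _ _)

theorem munits_Un (h : MUSys r f) (l : ℕ) : MUnits (Un f l) := by
  induction l with
  | zero =>
    have : Subsingleton (Fin (m 0)) := by
      show Subsingleton (Fin 1)
      infer_instance
    refine ⟨fun a b c d => ?_, fun a b => star_one A, ?_⟩
    · rw [if_pos (Subsingleton.elim b c)]
      exact mul_one 1
    · show ∑ a : Fin 1, (1 : A) = 1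
      simp
  | succ l ih =>
    have h1 := (ih.prod (munits_of_musys h l)
      (fun a b c d => (Un_commute h l l le_rfl a b c d).symm)).reindex (posEquiv l).symm
    exact h1

/-- the index of a path at level `l` -/
def fidx (l : ℕ) (y : Y) : Fin (m l) := ⟨idx l y, idx_lt l y⟩

theorem fidx_succ (l : ℕ) (y : Y) : fidx (l + 1) y = posEquiv l (fidx l y, y l) := rfl

theorem fidx_surj (l : ℕ) (p : Fin (m l)) : ∃ y, fidx l y = p := by
  induction l with
  | zero =>
    have : Subsingleton (Fin (m 0)) := by
      show Subsingleton (Fin 1)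
      infer_instance
    exact ⟨lastc, Subsingleton.elim _ _⟩
  | succ l ih =>
    obtain ⟨⟨p, c⟩, rfl⟩ := (posEquiv l).surjective p
    obtain ⟨y, hy⟩ := ih p
    refine ⟨Function.update y l c, ?_⟩
    rw [fidx_succ]
    congr 1
    refine Prod.ext ?_ (by simp)
    rw [← hy]
    refine Fin.ext ?_
    show idx l _ = idx l _
    rw [idx_eq_iff]
    intro j hj
    rw [Function.update_of_ne (by omega)]

theorem fidx_eq_iff {l : ℕ} {y z : Y} : fidx l y = fidx l z ↔ idx l y = idx l z :=
  ⟨fun h => congrArg Fin.val h, fun h => Fin.ext h⟩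

/-- the matrix units indexed by paths -/
noncomputable def V (f : ℕ → ℕ → ℕ → A) (l : ℕ) (x y : Y) : A := Un f l (fidx l x) (fidx l y)

theorem V_succ (l : ℕ) (x y : Y) : V f (l + 1) x y = V f l x y * f l (x l) (y l) := by
  unfold V
  rw [fidx_succ, fidx_succ, Un_succ]

theorem V_congr {l : ℕ} {x y x' y' : Y} (hx : idx l x = idx l x') (hy : idx l y = idx l y') :
    V f l x y = V f l x' y' := by
  unfold V
  rw [fidx_eq_iff.mpr hx, fidx_eq_iff.mpr hy]

theorem V_star (h : MUSys r f) (l : ℕ) (x y : Y) : star (V f l x y) = V f l y x :=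
  (munits_Un h l).str _ _

theorem V_mul (h : MUSys r f) (l : ℕ) (x y z w : Y) :
    V f l x y * V f l z w = if idx l y = idx l z then V f l x w else 0 := by
  unfold V
  rw [(munits_Un h l).mul]
  exact if_congr fidx_eq_iff rfl rfl

theorem V_mul_gen (h : MUSys r f) (k t : ℕ) (x y z w : Y) :
    V f k x y * V f (k + t) z w =
      if idx k y = idx k z then V f (k + t) (splice k x z) w else 0 := by
  induction t with
  | zero =>
    rw [add_zero, V_mul h]
    refine if_congr Iff.rfl (V_congr (idx_splice k x z).symm rfl) rfl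
  | succ t ih =>
    rw [← add_assoc, V_succ, ← mul_assoc, ih]
    split_ifs
    · rw [V_succ, splice_ge (by omega)]
    · rw [zero_mul]

theorem V_mul_ge (h : MUSys r f) {k l : ℕ} (hkl : k ≤ l) (x y z w : Y) :
    V f k x y * V f l z w = if idx k y = idx k z then V f l (splice k x z) w else 0 := by
  obtain ⟨t, rfl⟩ := Nat.exists_eq_add_of_le hkl
  exact V_mul_gen h k t x y z w

theorem V_mul_le (h : MUSys r f) {k l : ℕ} (hkl : k ≤ l) (x y z w : Y) :
    V f l x y * V f k z w = if idx k y = idx k z then V f l x (splice k w y) else 0 := by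
  have h1 := congrArg star (V_mul_ge h hkl w z y x)
  rw [star_mul, V_star h, V_star h] at h1
  rw [h1]
  by_cases hh : idx k y = idx k z
  · rw [if_pos hh, if_pos hh.symm, V_star h]
  · rw [if_neg hh, if_neg (Ne.symm hh), star_zero]

/-- level `l` as a star subalgebra -/
noncomputable def levl (h : MUSys r f) (l : ℕ) : StarSubalgebra ℂ A := (homU (munits_Un h l)).range

theorem mem_levl (h : MUSys r f) (l : ℕ) (a : A) :
    a ∈ levl h l ↔ ∃ M, homU (munits_Un h l) M = a := Iff.rfl

theorem Un_step (h : MUSys r f) (l : ℕ) (p q : Fin (m l)) :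
    Un f l p q = ∑ c : Fin (r l), Un f (l + 1) (posEquiv l (p, c)) (posEquiv l (q, c)) := by
  simp_rw [Un_succ]
  rw [← Finset.mul_sum, (munits_of_musys h l).one, mul_one]

theorem Un_mem (h : MUSys r f) (l : ℕ) (p q : Fin (m l)) : Un f l p q ∈ levl h l :=
  ⟨Matrix.single p q 1, homU_single _ p q⟩

theorem levl_mono (h : MUSys r f) : Monotone (levl h) := by
  refine monotone_nat_of_le_succ fun l => ?_
  rintro _ ⟨M, rfl⟩
  show homU (munits_Un h l) M ∈ levl h (l + 1)
  rw [homU_apply]
  refine sum_mem fun p _ => sum_mem fun q _ => SMulMemClass.smul_mem _ ?_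
  rw [Un_step h]
  exact sum_mem fun c _ => Un_mem h _ _ _

theorem f_mem (h : MUSys r f) (j a b : ℕ) : f j a b ∈ levl h (j + 1) := by
  by_cases hab : a < r j ∧ b < r j
  · have h1 : f j a b = ∑ p : Fin (m j), Un f (j + 1) (posEquiv j (p, ⟨a, hab.1⟩))
        (posEquiv j (p, ⟨b, hab.2⟩)) := by
      simp_rw [Un_succ]
      rw [← Finset.sum_mul, (munits_Un h j).one, one_mul]
    rw [h1]
    exact sum_mem fun c _ => Un_mem h _ _ _
  · have : f j a b = 0 := by
      rw [not_and_or, not_lt, not_lt] at hab
      rcases hab with hh | hh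
      · exact h.zero_left j a b hh
      · exact h.zero_right j a b hh
    rw [this]
    exact zero_mem _

theorem dense_levl (h : MUSys r f)
    (hgen : (StarAlgebra.adjoin ℂ {x | ∃ j a b, x = f j a b}).topologicalClosure = ⊤) :
    Dense (⋃ n, (levl h n : Set A)) := by
  have hdir : Directed (· ≤ ·) (levl h) := (levl_mono h).directed_le
  have h1 : ((⨆ n, levl h n : StarSubalgebra ℂ A) : Set A) = ⋃ n, (levl h n : Set A) :=
    StarSubalgebra.coe_iSup_of_directed hdir
  rw [← h1]
  have h2 : StarAlgebra.adjoin ℂ {x | ∃ j a b, x = f j a b} ≤ ⨆ n, levl h n := by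
    rw [StarAlgebra.adjoin_le_iff]
    rintro _ ⟨j, a, b, rfl⟩
    exact (le_iSup (levl h) (j + 1)) (f_mem h j a b)
  intro z
  have hz : z ∈ (StarAlgebra.adjoin ℂ {x | ∃ j a b, x = f j a b}).topologicalClosure := by
    rw [hgen]
    trivial
  exact closure_mono h2 hz

/-- The UHF structure. -/
noncomputable def theUHF [Nontrivial A] (h : MUSys r f)
    (hgen : (StarAlgebra.adjoin ℂ {x | ∃ j a b, x = f j a b}).topologicalClosure = ⊤) : UHF A where
  lev := levl h
  mono := levl_mono h
  factor n := ⟨m n, m_pos n,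
    ⟨(StarAlgEquiv.ofInjective (homU (munits_Un h n)) (homU_injective _)).symm⟩⟩
  dense := dense_levl h hgen

end Pool.Agent.H180.TF
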