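import Mathlib

/-! The order on the levels: frozen, dropped and active positions. -/

namespace Pool.Agent.H180.TF

/-- the number of copies at step `l` -/
def r (l : ℕ) : ℕ := 4 ^ (l + 1)

/-- the number of active positions at level `l` -/
def ac : ℕ → ℕ
  | 0 => 1
  | l + 1 => ac l * (r l - 1)

/-- the number of frozen positions at level `l` -/
def fr : ℕ → ℕ
  | 0 => 0
  | l + 1 => fr l * r l + ac l

/-- the size of level `l` -/
def m : ℕ → ℕ
  | 0 => 1
  | l + 1 => m l * r l

theorem r_ge (l : ℕ) : 4 ≤ r l := by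
  unfold r
  calc 4 = 4 ^ 1 := by norm_num
    _ ≤ 4 ^ (l + 1) := Nat.pow_le_pow_right (by norm_num) (by omega)

theorem r_pos (l : ℕ) : 0 < r l := by
  have := r_ge l
  omega

theorem exists_r (l : ℕ) : ∃ R, r l = R + 1 ∧ 3 ≤ R := ⟨r l - 1, by have := r_ge l; omega,
  by have := r_ge l; omega⟩

theorem ac_pos (l : ℕ) : 0 < ac l := by
  induction l with
  | zero => simp [ac]
  | succ l ih =>
    have := r_ge l
    exact Nat.mul_pos ih (by omega)

theorem m_eq (l : ℕ) : m l = fr l + ac l := by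
  induction l with
  | zero => simp [m, fr, ac]
  | succ l ih =>
    obtain ⟨R, hR, _⟩ := exists_r l
    simp only [m, fr, ac, ih, hR, Nat.add_sub_cancel]
    ring

theorem m_pos (l : ℕ) : 0 < m l := by
  rw [m_eq]
  have := ac_pos l
  omega

/-- the position at level `l + 1` of copy `c` of the position `i` of level `l` -/
def pos (l i c : ℕ) : ℕ :=
  if i < fr l then i * r l + c
  else if c = 0 then fr l * r l + (i - fr l)
  else fr (l + 1) + (i - fr l) * (r l - 1) + (c - 1)

theorem pos_frozen {l i c : ℕ} (h : i < fr l) : pos l i c = i * r l + c := if_pos h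

theorem pos_dropped {l i : ℕ} (h : fr l ≤ i) : pos l i 0 = fr l * r l + (i - fr l) := by
  unfold pos
  rw [if_neg (not_lt.mpr h), if_pos rfl]

theorem pos_active {l i c : ℕ} (h : fr l ≤ i) (hc : c ≠ 0) :
    pos l i c = fr (l + 1) + (i - fr l) * (r l - 1) + (c - 1) := by
  unfold pos
  rw [if_neg (not_lt.mpr h), if_neg hc]

theorem fr_succ (l : ℕ) : fr (l + 1) = fr l * r l + ac l := rfl

theorem m_succ (l : ℕ) : m (l + 1) = m l * r l := rfl

theorem ac_succ (l : ℕ) : ac (l + 1) = ac l * (r l - 1) := rfl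

/-- the three regimes -/
theorem regimes {l i c : ℕ} (hi : i < m l) (hc : c < r l) :
    (i < fr l ∧ pos l i c < fr l * r l) ∨
    (fr l ≤ i ∧ c = 0 ∧ fr l * r l ≤ pos l i c ∧ pos l i c < fr (l + 1)) ∨
    (fr l ≤ i ∧ c ≠ 0 ∧ fr (l + 1) ≤ pos l i c) := by
  rcases lt_or_ge i (fr l) with h | h
  · left
    refine ⟨h, ?_⟩
    rw [pos_frozen h]
    calc i * r l + c < i * r l + r l := by omega
      _ = (i + 1) * r l := by ring
      _ ≤ fr l * r l := Nat.mul_le_mul_right _ h
  · right
    rcases eq_or_ne c 0 with hc0 | hc0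
    · left
      subst hc0
      rw [pos_dropped h, fr_succ]
      rw [m_eq] at hi
      exact ⟨h, rfl, by omega, by omega⟩
    · right
      rw [pos_active h hc0]
      exact ⟨h, hc0, by omega⟩

/-- upper bounds are propagated -/
theorem pos_lt {l i c B : ℕ} (hi : i < m l) (hc : c < r l) (hB : i < fr l + B) (hB1 : 1 ≤ B) :
    pos l i c < fr (l + 1) + B * (r l - 1) := by
  rcases regimes hi hc with ⟨_, h⟩ | ⟨_, _, _, h⟩ | ⟨h1, h2, _⟩
  · rw [fr_succ]
    have := Nat.zero_le (B * (r l - 1))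
    omega
  · have := Nat.zero_le (B * (r l - 1))
    omega
  · rw [pos_active h1 h2]
    have h3 : (i - fr l + 1) * (r l - 1) ≤ B * (r l - 1) :=
      Nat.mul_le_mul_right _ (by omega)
    rw [add_mul, one_mul] at h3
    omega

theorem pos_lt_m {l i c : ℕ} (hi : i < m l) (hc : c < r l) : pos l i c < m (l + 1) := by
  have := pos_lt hi hc (B := ac l) (by rwa [← m_eq]) (ac_pos l)
  rwa [← ac_succ, ← m_eq] at this

/-- the cuts inside the frozen part -/
theorem pos_cut {l i c s : ℕ} (hi : i < m l) (hc : c < r l) (hs : s ≤ fr l) :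
    s * r l ≤ pos l i c ↔ s ≤ i := by
  have hsr : s * r l ≤ fr l * r l := Nat.mul_le_mul_right _ hs
  rcases regimes hi hc with ⟨h1, h⟩ | ⟨h1, _, h, _⟩ | ⟨h1, h2, h⟩
  · rw [pos_frozen h1]
    constructor
    · intro h3
      by_contra h4
      push Not at h4
      have : (i + 1) * r l ≤ s * r l := Nat.mul_le_mul_right _ h4
      rw [add_mul, one_mul] at this
      omega
    · intro h3
      have : s * r l ≤ i * r l := Nat.mul_le_mul_right _ h3
      omega
  · exact ⟨fun _ => hs.trans h1, fun _ => hsr.trans h⟩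
  · rw [fr_succ] at h
    exact ⟨fun _ => hs.trans h1, fun _ => by omega⟩

theorem pos_active_iff {l i c : ℕ} (hi : i < m l) (hc : c < r l) :
    fr (l + 1) ≤ pos l i c ↔ fr l ≤ i ∧ c ≠ 0 := by
  rcases regimes hi hc with ⟨h1, h⟩ | ⟨h1, h2, h, h3⟩ | ⟨h1, h2, h⟩
  · rw [fr_succ]
    exact ⟨fun _ => by omega, fun hh => by omega⟩
  · exact ⟨fun _ => by omega, fun hh => absurd h2 hh.2⟩
  · exact ⟨fun _ => ⟨h1, h2⟩, fun _ => h⟩

theorem mul_add_inj {R i c i' c' : ℕ} (hc : c < R) (hc' : c' < R)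
    (h : i * R + c = i' * R + c') : i = i' ∧ c = c' := by
  have h1 : (i * R + c) / R = i := by
    rw [mul_comm, Nat.mul_add_div (by omega), Nat.div_eq_of_lt hc, add_zero]
  have h2 : (i' * R + c') / R = i' := by
    rw [mul_comm, Nat.mul_add_div (by omega), Nat.div_eq_of_lt hc', add_zero]
  have h3 : i = i' := by rw [← h1, ← h2, h]
  subst h3
  exact ⟨rfl, by omega⟩

theorem pos_inj {l i c i' c' : ℕ} (hi : i < m l) (hc : c < r l) (hi' : i' < m l) (hc' : c' < r l)
    (h : pos l i c = pos l i' c') : i = i' ∧ c = c' := by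
  have hr := r_ge l
  rcases regimes hi hc with ⟨h1, h2⟩ | ⟨h1, h2, h3, h4⟩ | ⟨h1, h2, h3⟩
  · rcases regimes hi' hc' with ⟨h1', h2'⟩ | ⟨h1', h2', h3', h4'⟩ | ⟨h1', h2', h3'⟩
    · rw [pos_frozen h1, pos_frozen h1'] at h
      exact mul_add_inj hc hc' h
    · omega
    · rw [fr_succ] at h3'
      omega
  · rcases regimes hi' hc' with ⟨h1', h2'⟩ | ⟨h1', h2', h3', h4'⟩ | ⟨h1', h2', h3'⟩
    · omega
    · subst h2 h2'
      rw [pos_dropped h1, pos_dropped h1'] at h
      omega
    · omega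
  · rcases regimes hi' hc' with ⟨h1', h2'⟩ | ⟨h1', h2', h3', h4'⟩ | ⟨h1', h2', h3'⟩
    · rw [fr_succ] at h3
      omega
    · omega
    · rw [pos_active h1 h2, pos_active h1' h2', add_assoc, add_assoc] at h
      obtain ⟨h5, h6⟩ := mul_add_inj (by omega) (by omega) (Nat.add_left_cancel h)
      omega

/-- the embeddings are strictly increasing -/
theorem pos_mono {l i i' c : ℕ} (hi' : i' < m l) (hc : c < r l) (h : i < i') :
    pos l i c < pos l i' c := by
  have hi : i < m l := h.trans hi'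
  have hr := r_ge l
  rcases regimes hi hc with ⟨h1, h2⟩ | ⟨h1, h2, h3, h4⟩ | ⟨h1, h2, h3⟩
  · rcases regimes hi' hc with ⟨h1', h2'⟩ | ⟨h1', h2', h3', h4'⟩ | ⟨h1', h2', h3'⟩
    · rw [pos_frozen h1, pos_frozen h1']
      have : i * r l < i' * r l := Nat.mul_lt_mul_of_pos_right h (by omega)
      omega
    · omega
    · rw [fr_succ] at h3'
      omega
  · subst h2
    rw [pos_dropped h1, pos_dropped (h1.trans h.le)]
    omega
  · rw [pos_active h1 h2, pos_active (h1.trans h.le) h2]
    have : (i - fr l) * (r l - 1) < (i' - fr l) * (r l - 1) :=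
      Nat.mul_lt_mul_of_pos_right (by omega) (by omega)
    omega

end Pool.Agent.H180.TF
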