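import Pool.Agent.H180.TF.Tri

/-! The characters of the diagonal and the order. -/

open Finset WeakDual

namespace Pool.Agent.H180.TF

open Pool.Agent.Helper741.UHF Pool.Agent.H180.UP

variable {A : Type} [CStarAlgebra A] {f : ℕ → ℕ → ℕ → A}

theorem isClosed_diagonal (h : MUSys r f) : IsClosed (diagonal (Talg h) : Set A) := by
  have h1 : (diagonal (Talg h) : Set A) = (Talg h : Set A) ∩ star ⁻¹' (Talg h : Set A) := rfl
  rw [h1]
  exact (isClosed_Talg h).inter ((isClosed_Talg h).preimage continuous_star)

instance instCompleteDiag (h : MUSys r f) : CompleteSpace (diagonal (Talg h)) :=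
  (isClosed_diagonal h).completeSpace_coe

/-- the minimal projections of the levels as elements of the diagonal -/
noncomputable def dU (h : MUSys r f) (l : ℕ) (p : Fin (m l)) : diagonal (Talg h) :=
  ⟨Un f l p p, Un_diag_mem h l p⟩

/-- the minimal projections of the levels as elements of the diagonal -/
noncomputable def dV (h : MUSys r f) (l : ℕ) (z : Y) : diagonal (Talg h) := dU h l (fidx l z)

theorem coe_dV (h : MUSys r f) (l : ℕ) (z : Y) : (dV h l z : A) = V f l z z := rfl

theorem dU_mul_self (h : MUSys r f) (l : ℕ) (p : Fin (m l)) : dU h l p * dU h l p = dU h l p := by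
  apply Subtype.ext
  show Un f l p p * Un f l p p = Un f l p p
  rw [(munits_Un h l).mul, if_pos rfl]

theorem dU_mul_ne (h : MUSys r f) (l : ℕ) {p q : Fin (m l)} (hpq : p ≠ q) :
    dU h l p * dU h l q = 0 := by
  apply Subtype.ext
  show Un f l p p * Un f l q q = 0
  rw [(munits_Un h l).mul, if_neg hpq]

theorem sum_dU (h : MUSys r f) (l : ℕ) : ∑ p, dU h l p = 1 := by
  apply Subtype.ext
  rw [AddSubmonoidClass.coe_finsetSum]
  exact (munits_Un h l).one

theorem dU_star (h : MUSys r f) (l : ℕ) (p : Fin (m l)) : IsStarProjection (dU h l p) :=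
  ⟨dU_mul_self h l p, Subtype.ext ((munits_Un h l).str p p)⟩

theorem apply_dU (h : MUSys r f) (x : Spec (Talg h)) (l : ℕ) (p : Fin (m l)) :
    x (dU h l p) = 0 ∨ x (dU h l p) = 1 := by
  have h1 : x (dU h l p) * x (dU h l p) = x (dU h l p) := by
    rw [← map_mul, dU_mul_self]
  rcases eq_or_ne (x (dU h l p)) 0 with h0 | h0
  · exact Or.inl h0
  · exact Or.inr (mul_left_cancel₀ h0 (by rw [h1, mul_one]))

theorem exists_lidx (h : MUSys r f) (x : Spec (Talg h)) (l : ℕ) : ∃ p, x (dU h l p) = 1 := by
  by_contra hcon
  push Not at hcon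
  have h1 : ∀ p, x (dU h l p) = 0 := fun p => (apply_dU h x l p).resolve_right (hcon p)
  have h2 : x 1 = 0 := by
    rw [← sum_dU h l, map_sum]
    exact Finset.sum_eq_zero fun i _ => h1 i
  rw [map_one] at h2
  exact one_ne_zero h2

theorem lidx_unique (h : MUSys r f) (x : Spec (Talg h)) {l : ℕ} {p q : Fin (m l)}
    (hp : x (dU h l p) = 1) (hq : x (dU h l q) ≠ 0) : p = q := by
  by_contra hne
  have h2 : x (dU h l p) * x (dU h l q) = 0 := by
    rw [← map_mul, dU_mul_ne h l hne, map_zero]
  rw [hp, one_mul] at h2
  exact hq h2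

theorem exists_code (h : MUSys r f) (x : Spec (Talg h)) :
    ∃ y : Y, ∀ l, x (dV h l y) = 1 := by
  choose lidx hl using exists_lidx h x
  let y : Y := fun l => ((posEquiv l).symm (lidx (l + 1))).2
  refine ⟨y, ?_⟩
  have key : ∀ l, fidx l y = lidx l := by
    intro l
    induction l with
    | zero =>
      have : Subsingleton (Fin (m 0)) := by
        show Subsingleton (Fin 1)
        infer_instance
      exact Subsingleton.elim _ _
    | succ l ih =>
      rw [fidx_succ, ih]
      set P := (posEquiv l).symm (lidx (l + 1)) with hP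
      have hP' : posEquiv l P = lidx (l + 1) := (posEquiv l).apply_symm_apply _
      have h1 : dU h l P.1 * dU h (l + 1) (lidx (l + 1)) = dU h (l + 1) (lidx (l + 1)) := by
        apply Subtype.ext
        show Un f l P.1 P.1 * Un f (l + 1) (lidx (l + 1)) (lidx (l + 1)) =
          Un f (l + 1) (lidx (l + 1)) (lidx (l + 1))
        rw [← hP', Un_succ, ← mul_assoc, (munits_Un h l).mul, if_pos rfl]
      have h2 : x (dU h l P.1) = 1 := by
        have h3 := congrArg x h1
        rw [map_mul, hl (l + 1), mul_one] at h3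
        exact h3
      have h3 : lidx l = P.1 := lidx_unique h x (hl l) (by rw [h2]; exact one_ne_zero)
      rw [h3]
      exact hP'
  intro l
  rw [dV, key]
  exact hl l

/-- the path of a character -/
noncomputable def code (h : MUSys r f) (x : Spec (Talg h)) : Y := (exists_code h x).choose

theorem code_spec (h : MUSys r f) (x : Spec (Talg h)) (l : ℕ) : x (dV h l (code h x)) = 1 :=
  (exists_code h x).choose_spec l

theorem apply_dV (h : MUSys r f) (x : Spec (Talg h)) (l : ℕ) (z : Y) :
    x (dV h l z) = if idx l z = idx l (code h x) then 1 else 0 := by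
  split_ifs with h1
  · have h2 : dV h l z = dV h l (code h x) := by
      unfold dV
      rw [fidx_eq_iff.mpr h1]
    rw [h2, code_spec]
  · by_contra h2
    exact h1 (fidx_eq_iff.mp (lidx_unique h x (code_spec h x l) h2).symm)

theorem dense_D [Nontrivial A] (h : MUSys r f) (k : ℕ) :
    Dense {d : diagonal (Talg h) | (d : A) ∈ DenseDiag h k} := by
  intro d
  rw [closure_subtype]
  have h1 : Subtype.val '' {d : diagonal (Talg h) | (d : A) ∈ DenseDiag h k} = DenseDiag h k := by
    ext a
    constructor
    · rintro ⟨d, hd, rfl⟩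
      exact hd
    · intro ha
      obtain ⟨l, hl, c, rfl⟩ := ha
      exact ⟨⟨_, homU_diag_mem h l c⟩, ⟨l, hl, c, rfl⟩, rfl⟩
  rw [h1]
  exact diagonal_le_closure h k d.2

theorem ext_clm [Nontrivial A] (h : MUSys r f) {W : Type*} [NormedAddCommGroup W]
    [NormedSpace ℂ W] (F G : diagonal (Talg h) →L[ℂ] W) (k : ℕ)
    (hFG : ∀ l, k ≤ l → ∀ z, F (dV h l z) = G (dV h l z)) : F = G := by
  have h1 : Set.EqOn F G {d : diagonal (Talg h) | (d : A) ∈ DenseDiag h k} := by
    rintro d ⟨l, hl, c, hd⟩
    have h2 : d = ∑ p, c p • dU h l p := by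
      apply Subtype.ext
      rw [hd, homU_diagonal h, AddSubmonoidClass.coe_finsetSum]
      rfl
    rw [h2, map_sum, map_sum]
    refine Finset.sum_congr rfl fun p _ => ?_
    rw [map_smul, map_smul]
    obtain ⟨z, hz⟩ := fidx_surj l p
    have := hFG l hl z
    unfold dV at this
    rw [hz] at this
    rw [this]
  have h2 := Continuous.ext_on (dense_D h k) F.continuous G.continuous h1
  exact ContinuousLinearMap.ext fun d => congrFun h2 d

/-- characters as continuous linear functionals -/
noncomputable def toL (h : MUSys r f) (x : Spec (Talg h)) : diagonal (Talg h) →L[ℂ] ℂ :=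
  CharacterSpace.toCLM x

theorem toL_apply (h : MUSys r f) (x : Spec (Talg h)) (d : diagonal (Talg h)) :
    toL h x d = x d := rfl

theorem code_injective [Nontrivial A] (h : MUSys r f) : Function.Injective (code h) := by
  intro x y hxy
  have h1 : toL h x = toL h y := by
    refine ext_clm h _ _ 0 fun l _ z => ?_
    rw [toL_apply, toL_apply, apply_dV, apply_dV, hxy]
  apply Subtype.ext
  apply DFunLike.ext
  intro d
  exact congrArg (fun F : diagonal (Talg h) →L[ℂ] ℂ => F d) h1

theorem continuous_ev (h : MUSys r f) (d : diagonal (Talg h)) :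
    Continuous fun x : Spec (Talg h) => x d :=
  (WeakDual.eval_continuous d).comp continuous_subtype_val

theorem continuous_code (h : MUSys r f) : Continuous (code h) := by
  have h1 : ∀ l, Continuous fun x => fidx l (code h x) := by
    intro l
    rw [continuous_discrete_rng]
    intro p
    have h2 : (fun x => fidx l (code h x)) ⁻¹' {p} = {x | x (dU h l p) ≠ 0} := by
      ext x
      constructor
      · intro hx
        have hx : fidx l (code h x) = p := hx
        show x (dU h l p) ≠ 0
        have := code_spec h x l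
        unfold dV at this
        rw [← hx, this]
        exact one_ne_zero
      · intro hx
        exact lidx_unique h x (code_spec h x l) hx
    rw [h2]
    exact isOpen_ne_fun (continuous_ev h _) continuous_const
  refine continuous_pi fun l => ?_
  have h2 : (fun x => code h x l) = (fun P => ((posEquiv l).symm P).2) ∘
      fun x => fidx (l + 1) (code h x) := by
    funext x
    simp [fidx_succ]
  rw [h2]
  exact continuous_of_discreteTopology.comp (h1 (l + 1))

theorem exists_char [Nontrivial A] (h : MUSys r f)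
    (hcomm : ∀ a ∈ diagonal (Talg h), ∀ b ∈ diagonal (Talg h), a * b = b * a) (l : ℕ) (y : Y) :
    ∃ x : Spec (Talg h), x (dV h l y) = 1 := by
  let i1 : CStarAlgebra (diagonal (Talg h)) :=
    StarSubalgebra.cstarAlgebra (diagonal (Talg h)) (h_closed := isClosed_diagonal h)
  let i2 : CommCStarAlgebra (diagonal (Talg h)) :=
    { i1 with mul_comm := fun x y => Subtype.ext (hcomm x x.2 y y.2) }
  have h1 : (1 : ℂ) ∈ spectrum ℂ (dV h l y) := by
    rw [spectrum.mem_iff]
    intro hu
    have h2 : (algebraMap ℂ (diagonal (Talg h)) 1 - dV h l y) * dV h l y = 0 := by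
      rw [map_one, sub_mul, one_mul, dV, dU_mul_self, sub_self]
    have h3 := (hu.mul_right_eq_zero).mp h2
    have h4 : V f l y y = 0 := congrArg Subtype.val h3
    exact mu_ne (munits_Un h l) _ _ h4
  obtain ⟨χ, hχ⟩ := WeakDual.CharacterSpace.mem_spectrum_iff_exists.mp h1
  exact ⟨χ, hχ⟩

theorem code_surjective [Nontrivial A] (h : MUSys r f)
    (hcomm : ∀ a ∈ diagonal (Talg h), ∀ b ∈ diagonal (Talg h), a * b = b * a) :
    Function.Surjective (code h) := by
  intro y
  let K : ℕ → Set (Spec (Talg h)) := fun l => {x | x (dV h l y) = 1}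
  have hK : ∀ l, IsClosed (K l) := fun l => isClosed_eq (continuous_ev h _) continuous_const
  have hKi : ∀ l, K l = {x | idx l y = idx l (code h x)} := by
    intro l
    ext x
    show x (dV h l y) = 1 ↔ idx l y = idx l (code h x)
    rw [apply_dV]
    split_ifs with hh
    · exact ⟨fun _ => hh, fun _ => rfl⟩
    · exact ⟨fun h0 => absurd h0 zero_ne_one, fun h0 => absurd h0 hh⟩
  have hanti : ∀ l, K (l + 1) ⊆ K l := by
    intro l x hx
    rw [hKi] at hx ⊢
    exact idx_mono_level (Nat.le_succ l) hx
  obtain ⟨x, hx⟩ := IsCompact.nonempty_iInter_of_sequence_nonempty_isCompact_isClosed K hanti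
    (fun l => exists_char h hcomm l y) (hK 0).isCompact hK
  refine ⟨x, ?_⟩
  funext j
  have h1 := Set.mem_iInter.mp hx (j + 1)
  rw [hKi] at h1
  have h2 : idx (j + 1) y = idx (j + 1) (code h x) := h1
  rw [idx_eq_iff] at h2
  exact (h2 j (by omega)).symm

/-! ### The order -/

theorem conj_V (h : MUSys r f) {k l : ℕ} (hkl : k ≤ l) (x y z : Y) :
    V f k x y * V f l z z * V f k y x =
      if idx k y = idx k z then V f l (splice k x z) (splice k x z) else 0 := by
  rw [V_mul_ge h hkl]
  split_ifs with h1
  · rw [V_mul_le h hkl, if_pos h1.symm]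
  · rw [zero_mul]

theorem normalizes_V [Nontrivial A] (h : MUSys r f) (k : ℕ) (x y : Y) :
    Normalizes (Talg h) (V f k x y) := by
  have key : ∀ x y : Y, ∀ d ∈ diagonal (Talg h), V f k x y * d * V f k y x ∈ diagonal (Talg h) := by
    intro x y d hd
    have hcl : IsClosed {d : A | V f k x y * d * V f k y x ∈ diagonal (Talg h)} :=
      (isClosed_diagonal h).preimage (by fun_prop)
    refine closure_minimal ?_ hcl (diagonal_le_closure h k hd)
    rintro _ ⟨l, hl, c, rfl⟩
    show V f k x y * homU (munits_Un h l) (Matrix.diagonal c) * V f k y x ∈ diagonal (Talg h)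
    rw [homU_diagonal h, Finset.mul_sum, Finset.sum_mul]
    refine sum_mem fun p _ => ?_
    rw [mul_smul_comm, smul_mul_assoc]
    refine SMulMemClass.smul_mem _ ?_
    obtain ⟨z, rfl⟩ := fidx_surj l p
    have := conj_V h hl x y z
    unfold V at this
    unfold V
    rw [this]
    split_ifs
    · exact Un_diag_mem h l _
    · exact zero_mem _
  refine ⟨?_, fun d hd => ?_, fun d hd => ?_⟩
  · rw [V_star h, V_mul h, if_pos rfl, V_mul h, if_pos rfl]
  · rw [V_star h]
    exact key x y d hd
  · rw [V_star h]
    exact key y x d hd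

theorem ple_of_le [Nontrivial A] (h : MUSys r f) {x y : Spec (Talg h)}
    (hxy : Le (code h x) (code h y)) : PLe (Talg h) x y := by
  obtain ⟨k, hk1, hk2⟩ := hxy
  set x' := code h x with hx'
  set y' := code h y with hy'
  have hN := normalizes_V h k x' y'
  refine ⟨V f k x' y', V_mem_T h hk1, hN, ?_⟩
  let Φ : diagonal (Talg h) →L[ℂ] diagonal (Talg h) :=
    { toFun := fun d => ⟨star (V f k x' y') * d * V f k x' y', hN.2.2 d d.2⟩
      map_add' := fun d d' => Subtype.ext (by
        show star (V f k x' y') * (d + d') * V f k x' y' = _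
        rw [mul_add, add_mul]
        rfl)
      map_smul' := fun c d => Subtype.ext (by
        show star (V f k x' y') * (c • (d : A)) * V f k x' y' = _
        rw [mul_smul_comm, smul_mul_assoc]
        rfl)
      cont := by
        refine Continuous.subtype_mk ?_ _
        fun_prop }
  have h1 : toL h x = (toL h y).comp Φ := by
    refine ext_clm h _ _ k fun l hl z => ?_
    rw [ContinuousLinearMap.comp_apply, toL_apply, toL_apply]
    have h2 : Φ (dV h l z) = if idx k x' = idx k z then dV h l (splice k y' z) else 0 := by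
      apply Subtype.ext
      show star (V f k x' y') * V f l z z * V f k x' y' = _
      rw [V_star h, conj_V h hl]
      split_ifs <;> rfl
    rw [h2, apply_dV]
    by_cases h3 : idx k x' = idx k z
    · rw [if_pos h3, apply_dV]
      refine if_congr ?_ rfl rfl
      rw [← hx', ← hy', idx_eq_iff, idx_eq_iff]
      rw [idx_eq_iff] at h3
      constructor
      · intro h4 j hj
        rcases lt_or_ge j k with hjk | hjk
        · rw [splice_lt hjk]
        · rw [splice_ge hjk, h4 j hj, hk2 j hjk]
      · intro h4 j hj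
        rcases lt_or_ge j k with hjk | hjk
        · exact (h3 j hjk).symm
        · have := h4 j hj
          rw [splice_ge hjk] at this
          rw [this, hk2 j hjk]
    · rw [if_neg h3, map_zero, if_neg]
      rw [← hx']
      intro h4
      exact h3 (idx_mono_level hl h4).symm
  intro d e hde
  have h2 := congrArg (fun F : diagonal (Talg h) →L[ℂ] ℂ => F d) h1
  have h3 : Φ d = e := Subtype.ext hde.symm
  have h4 : toL h x d = toL h y (Φ d) := h2
  rw [h3] at h4
  exact h4

theorem norm_char_le [Nontrivial A] (h : MUSys r f) (x : Spec (Talg h))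
    (d : diagonal (Talg h)) : ‖x d‖ ≤ ‖(d : A)‖ := by
  have : NormOneClass (diagonal (Talg h)) := ⟨by
    show ‖((1 : diagonal (Talg h)) : A)‖ = 1
    exact CStarRing.norm_one⟩
  exact AlgHom.norm_apply_le_self x d

theorem le_of_ple [Nontrivial A] (h : MUSys r f) {x y : Spec (Talg h)}
    (hxy : PLe (Talg h) x y) : Le (code h x) (code h y) := by
  obtain ⟨v, hvT, hN, hG⟩ := hxy
  set x' := code h x with hx'
  set y' := code h y with hy'
  obtain ⟨n, b, hb, hvb⟩ := (mem_Talg h v).mp hvT 1 one_pos
  obtain ⟨M, hM, rfl⟩ := (mem_Tl h n b).mp hb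
  have key : ∀ k, n ≤ k → V f k x' x' * homU (munits_Un h n) M * V f k y' y' ≠ 0 := by
    intro k hk h0
    let e : diagonal (Talg h) := ⟨star v * V f k x' x' * v, hN.2.2 _ (V_diag_mem h k x')⟩
    have h1 : y e = 1 := by
      rw [← hG (dV h k x') e rfl]
      exact code_spec h x k
    have h2 : y (dV h k y' * e * dV h k y') = 1 := by
      rw [map_mul, map_mul, h1, hy', code_spec h y k, one_mul, one_mul]
    set w : A := V f k x' x' * v * V f k y' y' with hw
    have h3 : ((dV h k y' * e * dV h k y' : diagonal (Talg h)) : A) = star w * w := by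
      rw [hw, star_mul, star_mul, V_star h, V_star h]
      show V f k y' y' * (star v * V f k x' x' * v) * V f k y' y' = _
      have h4 : V f k x' x' = V f k x' x' * V f k x' x' := by rw [V_mul h, if_pos rfl]
      conv_lhs => rw [h4]
      simp only [mul_assoc]
    have h4 : w = V f k x' x' * (v - homU (munits_Un h n) M) * V f k y' y' := by
      rw [mul_sub, sub_mul, h0, sub_zero]
    have h5 : ‖w‖ ≤ ‖v - homU (munits_Un h n) M‖ := by
      rw [h4]
      have e1 : ‖V f k x' x'‖ ≤ 1 := (munits_Un h k).norm_le _ _
      have e2 : ‖V f k y' y'‖ ≤ 1 := (munits_Un h k).norm_le _ _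
      calc _ ≤ ‖V f k x' x' * (v - homU (munits_Un h n) M)‖ * ‖V f k y' y'‖ := norm_mul_le _ _
        _ ≤ (‖V f k x' x'‖ * ‖v - homU (munits_Un h n) M‖) * ‖V f k y' y'‖ := by
            gcongr
            exact norm_mul_le _ _
        _ ≤ (1 * ‖v - homU (munits_Un h n) M‖) * 1 := by gcongr
        _ = _ := by ring
    have h6 := norm_char_le h y (dV h k y' * e * dV h k y')
    rw [h2, h3, CStarRing.norm_star_mul_self, norm_one] at h6
    have h7 := norm_nonneg w
    nlinarith
  have key2 : ∀ k, n ≤ k → idx n x' ≤ idx n y' ∧ ∀ j, n ≤ j → j < k → x' j = y' j := by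
    intro k hk
    have h1 := key k hk
    rw [homU_apply, Finset.mul_sum, Finset.sum_mul] at h1
    obtain ⟨p, _, hp⟩ := Finset.exists_ne_zero_of_sum_ne_zero h1
    rw [Finset.mul_sum, Finset.sum_mul] at hp
    obtain ⟨q, _, hq⟩ := Finset.exists_ne_zero_of_sum_ne_zero hp
    rw [mul_smul_comm, smul_mul_assoc] at hq
    have hMpq : M p q ≠ 0 := fun h0 => hq (by rw [h0, zero_smul])
    have hne : V f k x' x' * Un f n p q * V f k y' y' ≠ 0 := fun h0 => hq (by rw [h0, smul_zero])
    have hpq : p ≤ q := by
      by_contra hcon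
      exact hMpq (hM p q (not_le.mp hcon))
    obtain ⟨z, rfl⟩ := fidx_surj n p
    obtain ⟨w, rfl⟩ := fidx_surj n q
    have h2 : V f k x' x' * V f n z w * V f k y' y' ≠ 0 := hne
    rw [mul_assoc, V_mul_ge h hk] at h2
    by_cases h3 : idx n w = idx n y'
    · rw [if_pos h3, V_mul h] at h2
      by_cases h4 : idx k x' = idx k (splice n z y')
      · rw [idx_eq_iff] at h4
        refine ⟨?_, fun j hnj hjk => ?_⟩
        · have h5 : idx n x' = idx n z := by
            rw [idx_eq_iff]
            intro j hj
            rw [h4 j (by omega), splice_lt hj]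
          rw [h5, ← h3]
          exact hpq
        · rw [h4 j hjk, splice_ge hnj]
      · rw [if_neg h4] at h2
        exact absurd rfl h2
    · rw [if_neg h3, mul_zero] at h2
      exact absurd rfl h2
  exact ⟨n, (key2 n le_rfl).1, fun j hj => (key2 (j + 1) (by omega)).2 j hj (by omega)⟩

theorem ple_iff [Nontrivial A] (h : MUSys r f) (x y : Spec (Talg h)) :
    PLe (Talg h) x y ↔ Le (code h x) (code h y) := ⟨le_of_ple h, ple_of_le h⟩

end Pool.Agent.H180.TF
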