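import Pool.Agent.H180.TF.Chars

/-! The counterexample. -/

open Finset WeakDual MeasureTheory Filter Topology

namespace Pool.Agent.H180.TF

open Pool.Agent.Helper741.UHF Pool.Agent.H180.UP

variable {A : Type} [CStarAlgebra A] {f : ℕ → ℕ → ℕ → A}

/-- the spectrum is the path space -/
noncomputable def codeH [Nontrivial A] (h : MUSys r f)
    (hcomm : ∀ a ∈ diagonal (Talg h), ∀ b ∈ diagonal (Talg h), a * b = b * a) :
    Spec (Talg h) ≃ₜ Y :=
  Continuous.homeoOfEquivCompactToT2
    (f := Equiv.ofBijective (code h) ⟨code_injective h, code_surjective h hcomm⟩)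
    (continuous_code h)

theorem codeH_apply [Nontrivial A] (h : MUSys r f)
    (hcomm : ∀ a ∈ diagonal (Talg h), ∀ b ∈ diagonal (Talg h), a * b = b * a)
    (x : Spec (Talg h)) : codeH h hcomm x = code h x := rfl

theorem exists_cyl {O : Set Y} (hO : IsOpen O) {y : Y} (hy : y ∈ O) : ∃ n, cyl n y ⊆ O := by
  rw [isOpen_pi_iff] at hO
  obtain ⟨I, u, hu, hI⟩ := hO y hy
  refine ⟨I.sup id + 1, ?_⟩
  intro z hz
  apply hI
  intro j hj
  have h1 : j < I.sup id + 1 := Nat.lt_succ_of_le (Finset.le_sup (f := id) hj)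
  have h2 : idx (I.sup id + 1) z = idx (I.sup id + 1) y := hz
  rw [idx_eq_iff] at h2
  rw [h2 j h1]
  exact (hu j hj).2

section hulls

variable [Nontrivial A] (h : MUSys r f)

theorem ple_refl (x : Spec (Talg h)) : PLe (Talg h) x x := (ple_iff h x x).mpr (Le.refl _)

theorem ple_trans {x y z : Spec (Talg h)} (h1 : PLe (Talg h) x y) (h2 : PLe (Talg h) y z) :
    PLe (Talg h) x z :=
  (ple_iff h x z).mpr (((ple_iff h x y).mp h1).trans ((ple_iff h y z).mp h2))

theorem decHull_eq (S : Set (Spec (Talg h))) :
    decHull (Talg h) S = code h ⁻¹' Down (code h '' S) := by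
  ext z
  constructor
  · intro hz
    have h1 := Set.mem_sInter.mp hz {z | ∃ w ∈ S, PLe (Talg h) z w}
      ⟨fun w hw => ⟨w, hw, ple_refl h w⟩, fun y ⟨w, hw, hyw⟩ x hxy => ⟨w, hw, ple_trans h hxy hyw⟩⟩
    obtain ⟨w, hw, hzw⟩ := h1
    exact ⟨code h w, ⟨w, hw, rfl⟩, (ple_iff h z w).mp hzw⟩
  · rintro ⟨_, ⟨w, hw, rfl⟩, hzw⟩
    refine Set.mem_sInter.mpr ?_
    rintro E ⟨hSE, hE⟩
    exact hE w (hSE hw) z ((ple_iff h z w).mpr hzw)

theorem incHull_eq (S : Set (Spec (Talg h))) :
    incHull (Talg h) S = code h ⁻¹' Up (code h '' S) := by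
  ext z
  constructor
  · intro hz
    have h1 := Set.mem_sInter.mp hz {z | ∃ w ∈ S, PLe (Talg h) w z}
      ⟨fun w hw => ⟨w, hw, ple_refl h w⟩, fun y ⟨w, hw, hyw⟩ x hxy => ⟨w, hw, ple_trans h hyw hxy⟩⟩
    obtain ⟨w, hw, hzw⟩ := h1
    exact ⟨code h w, ⟨w, hw, rfl⟩, (ple_iff h w z).mp hzw⟩
  · rintro ⟨_, ⟨w, hw, rfl⟩, hzw⟩
    refine Set.mem_sInter.mpr ?_
    rintro E ⟨hSE, hE⟩
    exact hE w (hSE hw) z ((ple_iff h w z).mpr hzw)

theorem isClosed_hat (e : diagonal (Talg h)) : IsClosed (hat (Talg h) e) :=
  isClosed_eq (continuous_ev h e) continuous_const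

theorem isOpen_hat {e : diagonal (Talg h)} (he : IsStarProjection e) :
    IsOpen (hat (Talg h) e) := by
  have h1 : hat (Talg h) e = {y | y e ≠ 0} := by
    ext y
    constructor
    · intro hy
      have hy : y e = 1 := hy
      show y e ≠ 0
      rw [hy]
      exact one_ne_zero
    · intro hy
      have h2 : y e * y e = y e := by rw [← map_mul, he.isIdempotentElem.eq]
      exact mul_left_cancel₀ hy (by rw [h2, mul_one])
  rw [h1]
  exact isOpen_ne_fun (continuous_ev h _) continuous_const

variable (hcomm : ∀ a ∈ diagonal (Talg h), ∀ b ∈ diagonal (Talg h), a * b = b * a)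

include hcomm in
theorem nest_cofinal {x : Spec (Talg h)} {e : ℕ → diagonal (Talg h)}
    (he : IsNest (Talg h) x e) :
    (∀ n, ∃ k, cyl k (code h x) ⊆ code h '' hat (Talg h) (e n)) ∧
      ∀ k, ∃ n, code h '' hat (Talg h) (e n) ⊆ cyl k (code h x) := by
  have hx : ∀ n, x ∈ hat (Talg h) (e n) := by
    intro n
    have h1 : x ∈ ⋂ n, hat (Talg h) (e n) := by
      rw [he.inter]
      exact Set.mem_singleton x
    exact Set.mem_iInter.mp h1 n
  constructor
  · intro n
    have h1 : IsOpen (code h '' hat (Talg h) (e n)) := by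
      have := (codeH h hcomm).isOpenMap _ (isOpen_hat h (he.proj n))
      exact this
    exact exists_cyl h1 ⟨x, hx n, rfl⟩
  · intro k
    have hanti : ∀ n, hat (Talg h) (e (n + 1)) ⊆ hat (Talg h) (e n) := by
      intro n y hy
      have hy : y (e (n + 1)) = 1 := hy
      have h1 := congrArg y (he.anti n)
      rw [map_mul, hy, mul_one] at h1
      exact h1
    have hdir : Directed (fun s t : Set (Spec (Talg h)) => s ⊇ t) fun n => hat (Talg h) (e n) :=
      (antitone_nat_of_succ_le hanti).directed_ge
    obtain ⟨n, hn⟩ := exists_subset_nhds_of_isCompact hdir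
      (fun n => (isClosed_hat h (e n)).isCompact) (U := code h ⁻¹' cyl k (code h x)) (by
        intro y hy
        rw [he.inter] at hy
        rw [Set.mem_singleton_iff.mp hy]
        have h1 : IsOpen (cyl k (code h x)) :=
          (isOpen_discrete {p : ℕ | p = idx k (code h x)}).preimage (continuous_idx k)
        exact (h1.preimage (continuous_code h)).mem_nhds (rfl : idx k _ = idx k _))
    refine ⟨n, ?_⟩
    rintro _ ⟨y, hy, rfl⟩
    exact hn hy

include hcomm in
theorem Eset_eq {x : Spec (Talg h)} {e : ℕ → diagonal (Talg h)} (he : IsNest (Talg h) x e) :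
    Eset (Talg h) e = code h ⁻¹' Ey (code h x) := by
  obtain ⟨h1, h2⟩ := nest_cofinal h hcomm he
  unfold Eset Ey
  simp_rw [decHull_eq h]
  rw [Set.preimage_iInter]
  apply Set.Subset.antisymm
  · refine Set.subset_iInter fun k => ?_
    obtain ⟨n, hn⟩ := h2 k
    exact (Set.iInter_subset _ n).trans (Set.preimage_mono (Down_mono hn))
  · refine Set.subset_iInter fun n => ?_
    obtain ⟨k, hk⟩ := h1 n
    exact (Set.iInter_subset _ k).trans (Set.preimage_mono (Down_mono hk))

include hcomm in
theorem Jset_eq {x : Spec (Talg h)} {e : ℕ → diagonal (Talg h)} (he : IsNest (Talg h) x e) :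
    Jset (Talg h) e = code h ⁻¹' Jy (code h x) := by
  obtain ⟨h1, h2⟩ := nest_cofinal h hcomm he
  unfold Jset Jy
  simp_rw [incHull_eq h]
  rw [Set.preimage_iInter]
  apply Set.Subset.antisymm
  · refine Set.subset_iInter fun k => ?_
    obtain ⟨n, hn⟩ := h2 k
    exact (Set.iInter_subset _ n).trans (Set.preimage_mono (Up_mono hn))
  · refine Set.subset_iInter fun n => ?_
    obtain ⟨k, hk⟩ := h1 n
    exact (Set.iInter_subset _ k).trans (Set.preimage_mono (Up_mono hk))

/-- the canonical nest -/
theorem isNest_canonical (x : Spec (Talg h)) :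
    IsNest (Talg h) x fun n => dV h n (code h x) := by
  refine ⟨fun n => dU_star h n _, fun n => ?_, ?_⟩
  · apply Subtype.ext
    show V f n (code h x) (code h x) * V f (n + 1) (code h x) (code h x) =
      V f (n + 1) (code h x) (code h x)
    rw [V_mul_ge h (Nat.le_succ n), if_pos rfl]
    refine V_congr ?_ rfl
    rw [idx_eq_iff]
    intro j _
    unfold splice
    split_ifs <;> rfl
  · ext y
    rw [Set.mem_iInter, Set.mem_singleton_iff]
    constructor
    · intro hy
      refine code_injective h ?_
      funext j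
      have h1 : y (dV h (j + 1) (code h x)) = 1 := hy (j + 1)
      rw [apply_dV] at h1
      by_cases h2 : idx (j + 1) (code h x) = idx (j + 1) (code h y)
      · rw [idx_eq_iff] at h2
        exact (h2 j (by omega)).symm
      · rw [if_neg h2] at h1
        exact absurd h1 zero_ne_one
    · rintro rfl n
      exact code_spec h y n

end hulls

/-! ### Measures -/

section measures

variable [Nontrivial A] (h : MUSys r f)
  (hgen : (StarAlgebra.adjoin ℂ {x | ∃ j a b, x = f j a b}).topologicalClosure = ⊤)

theorem integral_dU (μ : Measure (Spec (Talg h))) [IsProbabilityMeasure μ] (l : ℕ)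
    (p : Fin (m l)) : ∫ x : Spec (Talg h), x (dU h l p) ∂μ =
      ((μ.real {x | fidx l (code h x) = p} : ℝ) : ℂ) := by
  have h1 : ∀ x : Spec (Talg h), x (dU h l p) =
      Set.indicator {x | fidx l (code h x) = p} (fun _ => (1 : ℂ)) x := by
    intro x
    obtain ⟨z, rfl⟩ := fidx_surj l p
    rw [Set.indicator_apply]
    have := apply_dV h x l z
    unfold dV at this
    rw [this]
    refine if_congr ?_ rfl rfl
    rw [← fidx_eq_iff]
    exact eq_comm
  have hmeas : MeasurableSet {x : Spec (Talg h) | fidx l (code h x) = p} := by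
    have h2 : {x : Spec (Talg h) | fidx l (code h x) = p} = {x | x (dU h l p) = 1} := by
      ext x
      rw [Set.mem_ofPred_eq, Set.mem_ofPred_eq, h1]
      by_cases h3 : fidx l (code h x) = p
      · simp [h3]
      · simp [h3]
    rw [h2]
    exact (isClosed_eq (continuous_ev h _) continuous_const).measurableSet
  simp_rw [h1]
  rw [integral_indicator hmeas, setIntegral_const]
  simp

include hgen in
theorem hcomm_of : ∀ a ∈ diagonal (Talg h), ∀ b ∈ diagonal (Talg h), a * b = b * a :=
  (isTAF h hgen).comm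

theorem uniform_of_trace {μ : Measure (Spec (Talg h))}
    (hμ : IsTraceMeasure (theUHF h hgen) (Talg h) μ) : Uniform (μ.map (code h)) := by
  obtain ⟨hp, htr⟩ := hμ
  have hmeas : Measurable (code h) := (continuous_code h).measurable
  refine ⟨Measure.isProbabilityMeasure_map hmeas.aemeasurable, ?_⟩
  intro l p hp'
  let φ : (theUHF h hgen).lev l ≃⋆ₐ[ℂ] Matrix (Fin (m l)) (Fin (m l)) ℂ :=
    (StarAlgEquiv.ofInjective (homU (munits_Un h l)) (homU_injective _)).symm
  have h1 := htr l (m l) φ (dU h l ⟨p, hp'⟩) (Un_mem h l _ _)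
  rw [integral_dU] at h1
  have h2 : φ ⟨(dU h l ⟨p, hp'⟩ : A), Un_mem h l _ _⟩ = Matrix.single ⟨p, hp'⟩ ⟨p, hp'⟩ 1 := by
    refine (StarAlgEquiv.symm_apply_eq
      (e := StarAlgEquiv.ofInjective (homU (munits_Un h l)) (homU_injective _))).mpr ?_
    apply Subtype.ext
    exact (homU_single (munits_Un h l) _ _).symm
  rw [h2, Matrix.trace_single_eq_same] at h1
  have h3 : (μ.map (code h)).real {z | idx l z = p} =
      μ.real {x | fidx l (code h x) = ⟨p, hp'⟩} := by
    rw [measureReal_def, measureReal_def]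
    have h4 : (μ.map (code h)) {z | idx l z = p} = μ (code h ⁻¹' {z | idx l z = p}) :=
      Measure.map_apply hmeas (measurable_idx l (measurableSet_singleton p))
    rw [h4]
    congr 2
    ext x
    show idx l (code h x) = p ↔ fidx l (code h x) = ⟨p, hp'⟩
    exact ⟨fun hh => Fin.ext hh, fun hh => congrArg Fin.val hh⟩
  rw [h3]
  apply Complex.ofReal_injective
  rw [h1]
  push_cast
  rfl

instance (l : ℕ) : Nonempty (Fin (r l)) := ⟨⟨0, r_pos l⟩⟩

/-- the product of the uniform measures -/
noncomputable def unif : Measure Y :=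
  Measure.infinitePi fun l => (PMF.uniformOfFintype (Fin (r l))).toMeasure

theorem uniform_unif : Uniform unif := by
  have : IsProbabilityMeasure unif := by
    unfold unif
    infer_instance
  refine ⟨this, ?_⟩
  intro l p hp
  obtain ⟨y, hy⟩ := fidx_surj l ⟨p, hp⟩
  have hy' : idx l y = p := congrArg Fin.val hy
  have h1 : {z : Y | idx l z = p} = Set.pi (Finset.range l) fun j => {y j} := by
    ext z
    rw [← hy']
    show idx l z = idx l y ↔ _
    rw [idx_eq_iff]
    simp [Set.mem_pi]
  have h2 : unif {z : Y | idx l z = p} = ∏ j ∈ Finset.range l, ((r j : ENNReal))⁻¹ := by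
    rw [h1, unif, Measure.infinitePi_pi _ (fun j _ => measurableSet_singleton _)]
    refine Finset.prod_congr rfl fun j _ => ?_
    rw [PMF.toMeasure_apply_singleton _ _ (measurableSet_singleton _),
      PMF.uniformOfFintype_apply, Fintype.card_fin]
  have h3 : (m l : ℝ) = ∏ j ∈ Finset.range l, (r j : ℝ) := by
    clear h2 h1 hy' hy hp
    induction l with
    | zero => simp [m]
    | succ l ih =>
      rw [m_succ, Finset.prod_range_succ, ← ih]
      push_cast
      rfl
  rw [measureReal_def, h2, ENNReal.toReal_prod, h3, one_div, ← Finset.prod_inv_distrib]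
  refine Finset.prod_congr rfl fun j _ => ?_
  rw [ENNReal.toReal_inv, ENNReal.toReal_natCast]

theorem exists_trace_measure : ∃ μ, IsTraceMeasure (theUHF h hgen) (Talg h) μ := by
  have hcomm := hcomm_of h hgen
  have hprob : IsProbabilityMeasure unif := uniform_unif.prob
  set H := codeH h hcomm with hH
  refine ⟨unif.map H.symm, ?_, ?_⟩
  · exact Measure.isProbabilityMeasure_map H.symm.continuous.measurable.aemeasurable
  intro n k φ d hd
  have hprob' : IsProbabilityMeasure (unif.map H.symm) :=
    Measure.isProbabilityMeasure_map H.symm.continuous.measurable.aemeasurable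
  -- `d` is diagonal
  have hdd := hd
  obtain ⟨M, hM⟩ : ∃ M, homU (munits_Un h n) M = d := hdd
  have h1 : ∀ p q, p ≠ q → M p q = 0 := by
    intro p q hpq
    have h2 := hcomm d d.2 (Un f n q q) (Un_diag_mem h n q)
    have h3 := corner (munits_Un h n) M p q
    have h4 : Un f n p p * homU (munits_Un h n) M * Un f n q q = 0 := by
      rw [mul_assoc, hM, h2, ← mul_assoc, (munits_Un h n).mul, if_neg hpq, zero_mul]
    rw [h4] at h3
    exact (smul_eq_zero.mp h3.symm).resolve_right (mu_ne (munits_Un h n) p q)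
  have h2 : M = Matrix.diagonal fun p => M p p := by
    ext p q
    rcases eq_or_ne p q with rfl | hpq
    · rw [Matrix.diagonal_apply_eq]
    · rw [h1 p q hpq, Matrix.diagonal_apply_ne _ hpq]
  have hd2 : d = ∑ p, M p p • dU h n p := by
    apply Subtype.ext
    rw [← hM, h2, homU_diagonal h, AddSubmonoidClass.coe_finsetSum]
    refine Finset.sum_congr rfl fun p _ => ?_
    rw [Matrix.diagonal_apply_eq]
    rfl
  -- the measure of the cylinders
  have hcyl : ∀ p : Fin (m n), (unif.map H.symm).real {x | fidx n (code h x) = p} =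
      1 / (m n : ℝ) := by
    intro p
    have h3 := uniform_unif.eqs n p p.2
    rw [← h3, measureReal_def, measureReal_def]
    have h4 : (unif.map H.symm) {x | fidx n (code h x) = p} =
        unif (H.symm ⁻¹' {x | fidx n (code h x) = p}) :=
      H.symm.toMeasurableEquiv.map_apply _
    rw [h4]
    congr 2
    ext z
    show fidx n (code h (H.symm z)) = p ↔ idx n z = p
    have h5 : code h (H.symm z) = z := H.apply_symm_apply z
    rw [h5]
    exact ⟨fun hh => congrArg Fin.val hh, fun hh => Fin.ext hh⟩
  have hint : ∫ x : Spec (Talg h), x d ∂(unif.map H.symm) = ∑ p, M p p * (1 / (m n : ℂ)) := by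
    have h3 : ∀ x : Spec (Talg h), x d = ∑ p, M p p * x (dU h n p) := by
      intro x
      conv_lhs => rw [hd2]
      rw [map_sum]
      refine Finset.sum_congr rfl fun p _ => ?_
      rw [map_smul, smul_eq_mul]
    simp_rw [h3]
    rw [integral_finsetSum]
    · refine Finset.sum_congr rfl fun p _ => ?_
      rw [integral_const_mul, integral_dU, hcyl]
      push_cast
      rfl
    · intro p _
      refine Integrable.const_mul ?_ _
      refine Integrable.of_bound (C := 1) (continuous_ev h _).aestronglyMeasurable ?_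
      filter_upwards with x
      rcases apply_dU h x n p with h4 | h4 <;> rw [h4] <;> simp
  -- the trace
  let g : Fin (m n) → Fin (m n) → (theUHF h hgen).lev n := fun p q => ⟨Un f n p q, Un_mem h n p q⟩
  have hg : ∀ p q s t, g p q * g s t = if q = s then g p t else 0 := by
    intro p q s t
    apply Subtype.ext
    show Un f n p q * Un f n s t = _
    rw [(munits_Un h n).mul]
    split_ifs <;> rfl
  have htr : ∀ p q, (φ (g p p)).trace = (φ (g q q)).trace := by
    intro p q
    have e1 : g p p = g p q * g q p := by rw [hg, if_pos rfl]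
    have e2 : g q q = g q p * g p q := by rw [hg, if_pos rfl]
    rw [e1, e2, map_mul, map_mul, Matrix.trace_mul_comm]
  have hone : ∑ p, g p p = 1 := by
    apply Subtype.ext
    rw [AddSubmonoidClass.coe_finsetSum]
    exact (munits_Un h n).one
  have hsum : ∑ p, (φ (g p p)).trace = k := by
    rw [← Matrix.trace_sum, ← map_sum, hone, map_one, Matrix.trace_one, Fintype.card_fin]
  have hk : (k : ℂ) ≠ 0 := by
    intro hk0
    have hk0' : k = 0 := by exact_mod_cast hk0
    subst hk0'
    have : (1 : (theUHF h hgen).lev n) = 0 := φ.injective (Subsingleton.elim _ _)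
    have := congrArg Subtype.val this
    exact one_ne_zero this
  have hm0 : (m n : ℂ) ≠ 0 := by
    have := m_pos n
    exact_mod_cast this.ne'
  have htp : ∀ p, (φ (g p p)).trace = k / m n := by
    intro p
    rw [Finset.sum_congr rfl fun q _ => htr q p, Finset.sum_const, Finset.card_univ,
      Fintype.card_fin, nsmul_eq_mul] at hsum
    rw [eq_div_iff hm0, mul_comm]
    exact hsum
  have hd3 : (⟨(d : A), hd⟩ : (theUHF h hgen).lev n) = ∑ p, M p p • g p p := by
    apply Subtype.ext
    have e1 : (d : A) = ∑ p, M p p • Un f n p p := by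
      conv_lhs => rw [hd2]
      rw [AddSubmonoidClass.coe_finsetSum]
      rfl
    rw [AddSubmonoidClass.coe_finsetSum]
    exact e1
  rw [hint, hd3, map_sum, Matrix.trace_sum, Finset.sum_div]
  refine Finset.sum_congr rfl fun p _ => ?_
  rw [map_smul, Matrix.trace_smul, htp, smul_eq_mul]
  field_simp

end measures

/-- **The counterexample.** -/
theorem main : ∃ (A : Type) (_ : CStarAlgebra A) (_ : Nontrivial A) (U : UHF A)
    (T : Subalgebra ℂ A), IsTAF U T ∧ StronglyMaximal T ∧ (∀ x : Spec T, ∃ e, IsNest T x e) ∧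
      (∃ μ, IsTraceMeasure U T μ) ∧ ∀ μ, IsTraceMeasure U T μ → CondII T μ ∧ ¬ CondI T μ := by
  have hpos : ∀ j, 0 < r j := r_pos
  have := nontrivial_L2 hpos
  obtain ⟨A, iA, nA, f, _, h, hgen, _⟩ := exists_generated (fock_musys hpos)
  have hcomm := hcomm_of h hgen
  refine ⟨A, iA, nA, theUHF h hgen, Talg h, isTAF h hgen, stronglyMaximal h hgen,
    fun x => ⟨_, isNest_canonical h x⟩, exists_trace_measure h hgen, ?_⟩
  intro μ hμ
  have hν := uniform_of_trace h hgen hμ
  have hmap : ∀ B : Set Y, μ.map (code h) B = μ (code h ⁻¹' B) := fun B =>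
    (codeH h hcomm).toMeasurableEquiv.map_apply B
  constructor
  · intro x y hxy hne e e' he he'
    rw [Eset_eq h hcomm he, Eset_eq h hcomm he', ← hmap, ← hmap]
    rcases hν.condII ((ple_iff h x y).mp hxy) (fun hh => hne (code_injective h hh)) with h1 | h1
    · exact Or.inl h1
    · obtain ⟨C, hC, hCi, hyC, hxC⟩ := h1
      refine Or.inr ⟨code h ⁻¹' C, hC.preimage (continuous_code h), ?_, hyC, hxC⟩
      intro z hz w hzw
      exact hCi _ hz _ ((ple_iff h z w).mp hzw)
  · intro hI
    obtain ⟨x, hx⟩ := code_surjective h hcomm lastc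
    have h1 := hI x _ (isNest_canonical h x)
    rw [Eset_eq h hcomm (isNest_canonical h x), Jset_eq h hcomm (isNest_canonical h x),
      ← Set.preimage_inter, ← hmap, hx] at h1
    exact hν.not_condI h1

end Pool.Agent.H180.TF
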