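import Pool.Agent.H180.TF.Arith

/-! Paths, the order of the tails, and its increasing and decreasing sets. -/

open Set Filter Topology MeasureTheory

namespace Pool.Agent.H180.TF

/-- the sequences of copies -/
abbrev Y : Type := ∀ l : ℕ, Fin (r l)

/-- the position of a path at level `l` -/
def idx : ℕ → Y → ℕ
  | 0, _ => 0
  | l + 1, y => pos l (idx l y) (y l)

theorem idx_succ (l : ℕ) (y : Y) : idx (l + 1) y = pos l (idx l y) (y l) := rfl

theorem idx_lt (l : ℕ) (y : Y) : idx l y < m l := by
  induction l with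
  | zero => simp [idx, m]
  | succ l ih => exact pos_lt_m ih (y l).2

theorem idx_eq_iff (l : ℕ) (y z : Y) : idx l y = idx l z ↔ ∀ j < l, y j = z j := by
  induction l with
  | zero => simp [idx]
  | succ l ih =>
    constructor
    · intro h
      obtain ⟨h1, h2⟩ := pos_inj (idx_lt l y) (y l).2 (idx_lt l z) (z l).2 h
      intro j hj
      rcases Nat.lt_succ_iff_lt_or_eq.mp hj with hj | rfl
      · exact ih.mp h1 j hj
      · exact Fin.ext h2
    · intro h
      rw [idx_succ, idx_succ, ih.mpr (fun j hj => h j (by omega)), h l (by omega)]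

theorem idx_mono_level {k l : ℕ} (hkl : k ≤ l) {y z : Y} (h : idx l y = idx l z) :
    idx k y = idx k z := by
  rw [idx_eq_iff] at h ⊢
  exact fun j hj => h j (by omega)

/-- replace the first `k` copies -/
def splice (k : ℕ) (x z : Y) : Y := fun j => if j < k then x j else z j

theorem splice_lt {k j : ℕ} (h : j < k) (x z : Y) : splice k x z j = x j := if_pos h

theorem splice_ge {k j : ℕ} (h : k ≤ j) (x z : Y) : splice k x z j = z j :=
  if_neg (not_lt.mpr h)

theorem idx_splice (k : ℕ) (x z : Y) : idx k (splice k x z) = idx k x := by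
  rw [idx_eq_iff]
  exact fun j hj => splice_lt hj x z

/-- the order: comparison at some level, with the same copies afterwards -/
def LeAt (k : ℕ) (y z : Y) : Prop := idx k y ≤ idx k z ∧ ∀ l, k ≤ l → y l = z l

/-- the order -/
def Le (y z : Y) : Prop := ∃ k, LeAt k y z

theorem LeAt.succ {k : ℕ} {y z : Y} (h : LeAt k y z) : LeAt (k + 1) y z := by
  refine ⟨?_, fun l hl => h.2 l (by omega)⟩
  rw [idx_succ, idx_succ, ← h.2 k le_rfl]
  rcases h.1.lt_or_eq with h1 | h1
  · exact (pos_mono (idx_lt k z) (y k).2 h1).le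
  · rw [h1]

theorem LeAt.mono {k l : ℕ} (hkl : k ≤ l) {y z : Y} (h : LeAt k y z) : LeAt l y z := by
  induction l, hkl using Nat.le_induction with
  | base => exact h
  | succ l _ ih => exact ih.succ

theorem Le.refl (y : Y) : Le y y := ⟨0, le_rfl, fun _ _ => rfl⟩

theorem Le.trans {x y z : Y} (h : Le x y) (h' : Le y z) : Le x z := by
  obtain ⟨k, h⟩ := h
  obtain ⟨k', h'⟩ := h'
  have h1 := h.mono (le_max_left k k')
  have h2 := h'.mono (le_max_right k k')
  exact ⟨max k k', h1.1.trans h2.1, fun l hl => (h1.2 l hl).trans (h2.2 l hl)⟩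

/-- cylinders -/
def cyl (n : ℕ) (x : Y) : Set Y := {z | idx n z = idx n x}

/-- the smallest decreasing set -/
def Down (S : Set Y) : Set Y := {z | ∃ w ∈ S, Le z w}

/-- the smallest increasing set -/
def Up (S : Set Y) : Set Y := {z | ∃ w ∈ S, Le w z}

/-- the set `E_x` -/
def Ey (x : Y) : Set Y := ⋂ n, Down (cyl n x)

/-- the set `J_x` -/
def Jy (x : Y) : Set Y := ⋂ n, Up (cyl n x)

theorem Down_mono {S T : Set Y} (h : S ⊆ T) : Down S ⊆ Down T := fun _ ⟨w, hw, hz⟩ => ⟨w, h hw, hz⟩

theorem Up_mono {S T : Set Y} (h : S ⊆ T) : Up S ⊆ Up T := fun _ ⟨w, hw, hz⟩ => ⟨w, h hw, hz⟩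

theorem cyl_anti {k l : ℕ} (h : k ≤ l) (x : Y) : cyl l x ⊆ cyl k x := fun _ hz =>
  idx_mono_level h hz

/-! ### Increasing clopen sets from the frozen part -/

/-- the cut at level `l + t` of a frozen cut `s` of level `l` -/
theorem exists_cut {l s : ℕ} (hs : s ≤ fr l) (t : ℕ) :
    ∃ s', s' ≤ fr (l + t) ∧ ∀ z : Y, s' ≤ idx (l + t) z ↔ s ≤ idx l z := by
  induction t with
  | zero => exact ⟨s, hs, fun _ => Iff.rfl⟩
  | succ t ih =>
    obtain ⟨s', hs', h⟩ := ih
    refine ⟨s' * r (l + t), ?_, fun z => ?_⟩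
    · rw [← add_assoc, fr_succ]
      have : s' * r (l + t) ≤ fr (l + t) * r (l + t) := Nat.mul_le_mul_right _ hs'
      omega
    · rw [← add_assoc, idx_succ, pos_cut (idx_lt _ z) (z _).2 hs', h]

theorem increasing_cut {l s : ℕ} (hs : s ≤ fr l) {z w : Y} (hz : s ≤ idx l z) (h : Le z w) :
    s ≤ idx l w := by
  obtain ⟨k, hk⟩ := h
  have h1 := hk.mono (le_max_right l k)
  obtain ⟨t, ht⟩ := Nat.exists_eq_add_of_le (le_max_left l k)
  obtain ⟨s', _, h2⟩ := exists_cut hs t
  rw [ht] at h1
  exact (h2 w).mp (((h2 z).mpr hz).trans h1.1)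

theorem continuous_idx (l : ℕ) : Continuous (idx l) := by
  induction l with
  | zero => exact continuous_const
  | succ l ih =>
    have : idx (l + 1) = (fun p : ℕ × Fin (r l) => pos l p.1 p.2) ∘
        (fun y : Y => (idx l y, y l)) := rfl
    rw [this]
    exact continuous_of_discreteTopology.comp (ih.prodMk (continuous_apply l))

theorem isClopen_cut (l s : ℕ) : IsClopen {z : Y | s ≤ idx l z} :=
  (isClopen_discrete {p : ℕ | s ≤ p}).preimage (continuous_idx l)

/-! ### The decreasing sets of an active path -/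

/-- the product of the numbers of active copies -/
def Q (n : ℕ) : ℕ → ℕ
  | 0 => 1
  | t + 1 => Q n t * (r (n + t) - 1)

theorem ac_add (n t : ℕ) : ac (n + t) = ac n * Q n t := by
  induction t with
  | zero => simp [Q]
  | succ t ih => rw [← add_assoc, ac_succ, ih, Q, mul_assoc]

theorem Q_pos (n t : ℕ) : 0 < Q n t := by
  have := ac_pos (n + t)
  rw [ac_add] at this
  exact Nat.pos_of_mul_pos_left this

/-- the last copy -/
def lastc (l : ℕ) : Fin (r l) := ⟨r l - 1, by have := r_pos l; omega⟩

/-- first `n` copies of `x`, then last copies up to level `n + t`, then the tail of `z` -/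
def ext (n t : ℕ) (x z : Y) : Y := splice n x (splice (n + t) lastc z)

theorem idx_ext {n : ℕ} {x : Y} (hx : fr n ≤ idx n x) (z : Y) (T t : ℕ) (ht : t ≤ T) :
    idx (n + t) (ext n T x z) + 1 = fr (n + t) + (idx n x + 1 - fr n) * Q n t := by
  induction t with
  | zero =>
    rw [add_zero, ext, idx_splice, Q, mul_one]
    omega
  | succ t ih =>
    have ih := ih (by omega)
    have hQ : 1 ≤ (idx n x + 1 - fr n) * Q n t :=
      Nat.mul_pos (by omega) (Q_pos n t)
    have hc : ext n T x z (n + t) = lastc (n + t) := by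
      rw [ext, splice_ge (by omega), splice_lt (by omega)]
    have hr := r_ge (n + t)
    have hcv : ((lastc (n + t) : Fin (r (n + t))) : ℕ) = r (n + t) - 1 := rfl
    rw [← add_assoc, idx_succ, hc, hcv, pos_active (by omega) (by omega)]
    have h1 : idx (n + t) (ext n T x z) - fr (n + t) + 1 = (idx n x + 1 - fr n) * Q n t := by
      omega
    rw [Q, ← mul_assoc, ← h1, add_mul, one_mul]
    omega

/-- the bound of the decreasing set at level `n + t` -/
def bd (n : ℕ) (x : Y) (t : ℕ) : ℕ := fr (n + t) + (idx n x + 1 - fr n) * Q n t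

theorem idx_lt_bd {n : ℕ} {x w : Y} (hw : idx n w ≤ idx n x) (hx : fr n ≤ idx n x) (t : ℕ) :
    idx (n + t) w < bd n x t := by
  induction t with
  | zero =>
    simp only [bd, add_zero, Q, mul_one]
    omega
  | succ t ih =>
    have hQ : 1 ≤ (idx n x + 1 - fr n) * Q n t := Nat.mul_pos (by omega) (Q_pos n t)
    have := pos_lt (idx_lt (n + t) w) (w (n + t)).2 ih hQ
    rw [bd, Q, ← mul_assoc]
    exact this

theorem bd_step {n : ℕ} {x w : Y} (hx : fr n ≤ idx n x) {t : ℕ} (h : idx (n + t) w < bd n x t) :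
    idx (n + (t + 1)) w < bd n x (t + 1) := by
  have hQ : 1 ≤ (idx n x + 1 - fr n) * Q n t := Nat.mul_pos (by omega) (Q_pos n t)
  have := pos_lt (idx_lt (n + t) w) (w (n + t)).2 h hQ
  rw [bd, Q, ← mul_assoc]
  exact this

theorem Down_cyl {n : ℕ} {x : Y} (hx : fr n ≤ idx n x) :
    Down (cyl n x) = ⋃ t, {z | idx (n + t) z < bd n x t} := by
  ext z
  rw [mem_iUnion]
  constructor
  · rintro ⟨w, hw, k, hk⟩
    obtain ⟨t, ht⟩ := Nat.exists_eq_add_of_le (le_max_left n k)
    have h1 := hk.mono (le_max_right n k)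
    rw [ht] at h1
    exact ⟨t, h1.1.trans_lt (idx_lt_bd (le_of_eq hw) hx t)⟩
  · rintro ⟨t, ht⟩
    refine ⟨ext n t x z, idx_splice _ _ _, n + t, ?_, fun l hl => ?_⟩
    · have h1 := idx_ext hx z t t le_rfl
      have ht' : idx (n + t) z < fr (n + t) + (idx n x + 1 - fr n) * Q n t := ht
      omega
    · rw [ext, splice_ge (by omega), splice_ge hl]

theorem monotone_bd {n : ℕ} {x : Y} (hx : fr n ≤ idx n x) :
    Monotone fun t => {z : Y | idx (n + t) z < bd n x t} :=
  monotone_nat_of_le_succ fun _ _ hz => bd_step hx hz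

theorem isOpen_Down {n : ℕ} {x : Y} (hx : fr n ≤ idx n x) : IsOpen (Down (cyl n x)) := by
  rw [Down_cyl hx]
  exact isOpen_iUnion fun t => (isOpen_discrete {p : ℕ | p < bd n x t}).preimage
    (continuous_idx _)

/-! ### The densities -/

/-- the density of the active positions -/
noncomputable def rho (l : ℕ) : ℝ := ac l / m l

theorem rho_succ (l : ℕ) : rho (l + 1) = rho l * (1 - 1 / (r l : ℝ)) := by
  have h1 : (m l : ℝ) ≠ 0 := by
    have := m_pos l
    positivity
  have h2 : (r l : ℝ) ≠ 0 := by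
    have := r_pos l
    positivity
  unfold rho
  rw [ac_succ, m_succ]
  rw [Nat.cast_mul, Nat.cast_mul, Nat.cast_sub (by have := r_ge l; omega), Nat.cast_one]
  field_simp

theorem rho_anti : Antitone rho := by
  refine antitone_nat_of_succ_le fun l => ?_
  rw [rho_succ]
  have h1 : 0 ≤ rho l := by
    unfold rho
    positivity
  have h2 : 0 ≤ 1 / (r l : ℝ) := by positivity
  nlinarith

theorem rho_ge (l : ℕ) : 2 / 3 + 1 / 3 * (1 / 4 : ℝ) ^ l ≤ rho l := by
  induction l with
  | zero =>
    simp [rho, ac, m]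
    norm_num
  | succ l ih =>
    rw [rho_succ]
    have h1 : 1 / (r l : ℝ) = (1 / 4 : ℝ) ^ (l + 1) := by
      unfold r
      push_cast
      rw [one_div_pow]
    rw [h1]
    have h2 : (0 : ℝ) < (1 / 4 : ℝ) ^ l := by positivity
    have h3 : (1 / 4 : ℝ) ^ l ≤ 1 := pow_le_one₀ (by norm_num) (by norm_num)
    have h4 : (1 / 4 : ℝ) ^ (l + 1) = (1 / 4 : ℝ) ^ l / 4 := by
      rw [pow_succ]
      ring
    rw [h4]
    have h5 : 0 ≤ 1 - (1 / 4 : ℝ) ^ l / 4 := by linarith
    calc 2 / 3 + 1 / 3 * ((1 / 4 : ℝ) ^ l / 4)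
        ≤ (2 / 3 + 1 / 3 * (1 / 4 : ℝ) ^ l) * (1 - (1 / 4 : ℝ) ^ l / 4) := by nlinarith
      _ ≤ rho l * (1 - (1 / 4 : ℝ) ^ l / 4) := mul_le_mul_of_nonneg_right ih h5

/-- the limit density -/
noncomputable def alpha : ℝ := ⨅ l, rho l

theorem rho_bdd : BddBelow (range rho) := ⟨2 / 3, by
  rintro _ ⟨l, rfl⟩
  have := rho_ge l
  have h2 : (0 : ℝ) < (1 / 4 : ℝ) ^ l := by positivity
  linarith⟩

theorem tendsto_rho : Tendsto rho atTop (𝓝 alpha) := tendsto_atTop_ciInf rho_anti rho_bdd

theorem alpha_ge : 2 / 3 ≤ alpha := le_ciInf fun l => by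
  have := rho_ge l
  have h2 : (0 : ℝ) < (1 / 4 : ℝ) ^ l := by positivity
  linarith

/-! ### Measures -/

/-- a probability measure giving the same mass to all cylinders of the same level -/
structure Uniform (ν : Measure Y) : Prop where
  prob : IsProbabilityMeasure ν
  eqs : ∀ l p, p < m l → ν.real {z | idx l z = p} = 1 / (m l : ℝ)

theorem measurable_idx (l : ℕ) : Measurable (idx l) := by
  induction l with
  | zero => exact measurable_const
  | succ l ih =>
    have : idx (l + 1) = (fun p : ℕ × Fin (r l) => pos l p.1 p.2) ∘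
        (fun y : Y => (idx l y, y l)) := rfl
    rw [this]
    exact (measurable_of_countable _).comp (ih.prodMk (measurable_pi_apply l))

theorem Uniform.real_lt {ν : Measure Y} (h : Uniform ν) (l N : ℕ) (hN : N ≤ m l) :
    ν.real {z | idx l z < N} = N / (m l : ℝ) := by
  have := h.prob
  have h1 : {z : Y | idx l z < N} = ⋃ p ∈ Finset.range N, {z | idx l z = p} := by
    ext z
    simp
  rw [h1, measureReal_biUnion_finset]
  · rw [Finset.sum_congr rfl fun p hp => h.eqs l p (lt_of_lt_of_le (Finset.mem_range.mp hp) hN)]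
    rw [Finset.sum_const, Finset.card_range, nsmul_eq_mul]
    ring
  · intro p _ q _ hpq
    rw [Function.onFun, Set.disjoint_left]
    intro z hz hz'
    exact hpq (hz.symm.trans hz')
  · intro p _
    exact measurable_idx l (measurableSet_singleton p)

theorem Uniform.real_Down {ν : Measure Y} (h : Uniform ν) {n : ℕ} {x : Y}
    (hx : fr n ≤ idx n x) :
    ν.real (Down (cyl n x)) = 1 - alpha * (1 - ((idx n x + 1 - fr n : ℕ) : ℝ) / ac n) := by
  have := h.prob
  have hmeas : ∀ t, MeasurableSet {z : Y | idx (n + t) z < bd n x t} := fun t =>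
    measurable_idx (n + t) (measurableSet_lt measurable_id measurable_const)
  set b : ℕ := idx n x + 1 - fr n with hb
  have hbac : b ≤ ac n := by
    have := idx_lt n x
    rw [m_eq] at this
    omega
  have h1 : ∀ t, ν.real {z : Y | idx (n + t) z < bd n x t} =
      1 - rho (n + t) * (1 - (b : ℝ) / ac n) := by
    intro t
    have hle : bd n x t ≤ m (n + t) := by
      have hbd : bd n x t = fr (n + t) + b * Q n t := rfl
      rw [hbd, m_eq, ac_add]
      have : b * Q n t ≤ ac n * Q n t := Nat.mul_le_mul_right _ hbac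
      omega
    rw [h.real_lt _ _ hle]
    have hm : (m (n + t) : ℝ) ≠ 0 := by
      have := m_pos (n + t)
      positivity
    have ha : (ac n : ℝ) ≠ 0 := by
      have := ac_pos n
      positivity
    have e1 : (m (n + t) : ℝ) = fr (n + t) + ac n * Q n t := by
      rw [m_eq, ac_add]
      push_cast
      ring
    have e2 : (bd n x t : ℝ) = fr (n + t) + b * Q n t := by
      rw [bd]
      push_cast
      ring
    have e3 : (ac (n + t) : ℝ) = ac n * Q n t := by
      rw [ac_add]
      push_cast
      ring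
    unfold rho
    rw [e2, e3]
    have e4 : (ac n * Q n t : ℝ) / m (n + t) * (1 - b / ac n) =
        (ac n * Q n t - b * Q n t) / m (n + t) := by
      field_simp
    rw [e4, eq_sub_iff_add_eq, ← add_div, div_eq_one_iff_eq hm, e1]
    ring
  have h2 : Tendsto (fun t => ν.real {z : Y | idx (n + t) z < bd n x t}) atTop
      (𝓝 (ν.real (Down (cyl n x)))) := by
    rw [Down_cyl hx]
    exact (ENNReal.tendsto_toReal (measure_ne_top _ _)).comp
      (tendsto_measure_iUnion_atTop (monotone_bd hx))
  have h3 : Tendsto (fun t => ν.real {z : Y | idx (n + t) z < bd n x t}) atTop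
      (𝓝 (1 - alpha * (1 - (b : ℝ) / ac n))) := by
    simp_rw [h1]
    refine tendsto_const_nhds.sub (Tendsto.mul_const _ ?_)
    exact tendsto_rho.comp (tendsto_add_atTop_nat n |>.congr fun t => by rw [add_comm])
  exact tendsto_nhds_unique h2 h3

theorem Uniform.tendsto_Down {ν : Measure Y} (h : Uniform ν) {x : Y}
    (hx : ∀ n, fr n ≤ idx n x) :
    Tendsto (fun n => ν.real (Down (cyl n x))) atTop (𝓝 (ν.real (Ey x))) := by
  have := h.prob
  refine (ENNReal.tendsto_toReal (measure_ne_top _ _)).comp ?_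
  refine tendsto_measure_iInter_atTop
    (fun n => (isOpen_Down (hx n)).measurableSet.nullMeasurableSet)
    (fun k l hkl => Down_mono (cyl_anti hkl x)) ⟨0, measure_ne_top _ _⟩

/-- **Condition (ii) holds.** -/
theorem Uniform.condII {ν : Measure Y} (h : Uniform ν) {x y : Y} (hxy : Le x y) (hne : x ≠ y) :
    ν (Ey x) < ν (Ey y) ∨ ∃ C : Set Y, IsClopen C ∧ (∀ z ∈ C, ∀ w, Le z w → w ∈ C) ∧
      y ∈ C ∧ x ∉ C := by
  have := h.prob
  obtain ⟨k, hk⟩ := hxy
  have hlt : ∀ l, k ≤ l → idx l x < idx l y := by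
    intro l hl
    refine lt_of_le_of_ne (hk.mono hl).1 fun heq => hne ?_
    funext j
    rcases lt_or_ge j l with hj | hj
    · exact (idx_eq_iff l x y).mp heq j hj
    · exact hk.2 j (hl.trans hj)
  by_cases h1 : ∃ l, k ≤ l ∧ idx l y < fr l
  · obtain ⟨l, hl, hy⟩ := h1
    right
    exact ⟨{z | idx l y ≤ idx l z}, isClopen_cut l _, fun z hz w hzw =>
      increasing_cut hy.le hz hzw, (le_refl (idx l y) : _), not_le.mpr (hlt l hl)⟩
  by_cases h2 : ∃ l, k ≤ l ∧ idx l x < fr l
  · obtain ⟨l, hl, hx⟩ := h2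
    right
    refine ⟨{z | fr l ≤ idx l z}, isClopen_cut l _, fun z hz w hzw =>
      increasing_cut le_rfl hz hzw, ?_, not_le.mpr hx⟩
    push Not at h1
    exact h1 l hl
  left
  push Not at h1 h2
  have hact : ∀ z : Y, (∀ l, k ≤ l → fr l ≤ idx l z) → ∀ l, fr l ≤ idx l z := by
    intro z hz l
    rcases le_total k l with hl | hl
    · exact hz l hl
    · obtain ⟨t, rfl⟩ := Nat.exists_eq_add_of_le hl
      have key : ∀ t, fr (l + t) ≤ idx (l + t) z → fr l ≤ idx l z := by
        intro t
        induction t with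
        | zero => exact id
        | succ t ih =>
          intro h3
          exact ih ((pos_active_iff (idx_lt (l + t) z) (z (l + t)).2).mp h3).1
      exact key t (hz _ le_rfl)
  have hxa := hact x h2
  have hya := hact y h1
  set c₀ : ℝ := ((idx k y - idx k x : ℕ) : ℝ) / ac k with hc₀
  have hc₀pos : 0 < c₀ := by
    have := ac_pos k
    have := hlt k le_rfl
    have : 0 < ((idx k y - idx k x : ℕ) : ℝ) := by
      exact_mod_cast (by omega : 0 < idx k y - idx k x)
    positivity
  have hdiff : ∀ t, idx (k + t) y - idx (k + t) x = (idx k y - idx k x) * Q k t := by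
    intro t
    induction t with
    | zero => simp [Q]
    | succ t ih =>
      have e1 := pos_active_iff (idx_lt (k + t) x) (x (k + t)).2
      have e2 := pos_active_iff (idx_lt (k + t) y) (y (k + t)).2
      obtain ⟨a1, a2⟩ := e1.mp (hxa (k + t + 1))
      obtain ⟨b1, b2⟩ := e2.mp (hya (k + t + 1))
      have hc : x (k + t) = y (k + t) := hk.2 _ (by omega)
      rw [← add_assoc, idx_succ, idx_succ, pos_active a1 a2, pos_active b1 b2, hc, Q, ← mul_assoc,
        ← ih]
      have hlt' := hlt (k + t) (by omega)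
      have e3 : (idx (k + t) y - fr (k + t)) * (r (k + t) - 1) =
          (idx (k + t) x - fr (k + t)) * (r (k + t) - 1) +
          (idx (k + t) y - idx (k + t) x) * (r (k + t) - 1) := by
        rw [← add_mul]
        congr 1
        omega
      omega
  have hd : ∀ n, k ≤ n → ν.real (Down (cyl n y)) - ν.real (Down (cyl n x)) = alpha * c₀ := by
    intro n hn
    obtain ⟨t, rfl⟩ := Nat.exists_eq_add_of_le hn
    rw [h.real_Down (hya _), h.real_Down (hxa _)]
    have hlt' := hlt (k + t) (by omega)
    have e1 : ((idx (k + t) y + 1 - fr (k + t) : ℕ) : ℝ) =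
        ((idx (k + t) x + 1 - fr (k + t) : ℕ) : ℝ) + ((idx k y - idx k x : ℕ) : ℝ) * Q k t := by
      rw [← Nat.cast_mul, ← hdiff t, ← Nat.cast_add]
      congr 1
      have := hxa (k + t)
      omega
    have e2 : (ac (k + t) : ℝ) = ac k * Q k t := by
      rw [ac_add]
      push_cast
      ring
    have ha : (ac k : ℝ) ≠ 0 := by
      have := ac_pos k
      positivity
    have hQ : (Q k t : ℝ) ≠ 0 := by
      have := Q_pos k t
      positivity
    have e3 : ((idx k y - idx k x : ℕ) : ℝ) * Q k t / ac (k + t) = c₀ := by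
      rw [hc₀, e2]
      field_simp
    rw [e1, add_div, e3]
    ring
  have hlim := (h.tendsto_Down hya).sub (h.tendsto_Down hxa)
  have hlim2 : Tendsto (fun n => ν.real (Down (cyl n y)) - ν.real (Down (cyl n x))) atTop
      (𝓝 (alpha * c₀)) := by
    refine tendsto_const_nhds.congr' ?_
    filter_upwards [eventually_ge_atTop k] with n hn
    exact (hd n hn).symm
  have hfin := tendsto_nhds_unique hlim hlim2
  have hα : 0 < alpha := lt_of_lt_of_le (by norm_num) alpha_ge
  have hfin2 : ν.real (Ey x) < ν.real (Ey y) := by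
    have : 0 < alpha * c₀ := mul_pos hα hc₀pos
    linarith
  exact (ENNReal.toReal_lt_toReal (measure_ne_top _ _) (measure_ne_top _ _)).mp hfin2

/-- **Condition (i) fails.** -/
theorem Uniform.not_condI {ν : Measure Y} (h : Uniform ν) : ν (Ey lastc ∩ Jy lastc) ≠ 0 := by
  have := h.prob
  have htop : ∀ n, idx n lastc + 1 = m n := by
    intro n
    have h1 := idx_ext (n := 0) (x := lastc) (by simp [fr]) lastc n n le_rfl
    have h2 : ext 0 n lastc lastc = lastc := by
      funext j
      simp [ext, splice]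
    rw [h2, zero_add] at h1
    have h3 := ac_add 0 n
    rw [zero_add, ac, one_mul] at h3
    rw [h1, m_eq, h3]
    simp [idx, fr]
  have hlast : ∀ n, fr n ≤ idx n lastc := by
    intro n
    have := htop n
    have := m_eq n
    have := ac_pos n
    omega
  have hE : Ey lastc = univ := by
    rw [eq_univ_iff_forall]
    intro z
    refine mem_iInter.mpr fun n => ?_
    rw [Down_cyl (hlast n)]
    refine mem_iUnion.mpr ⟨0, ?_⟩
    have h1 := htop n
    have h2 := idx_lt n z
    have h3 := m_eq n
    have h4 := hlast n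
    simp only [Set.mem_ofPred_eq, bd, add_zero, Q, mul_one]
    omega
  have hJ : (⋂ l, {z : Y | fr l ≤ idx l z}) ⊆ Jy lastc := by
    intro z hz
    rw [mem_iInter] at hz
    refine mem_iInter.mpr fun n => ?_
    have hrn := r_pos n
    refine ⟨splice n lastc (splice (n + 1) (fun l => ⟨0, r_pos l⟩) z), idx_splice _ _ _, n + 1,
      ?_, fun l hl => ?_⟩
    · have h1 : splice n lastc (splice (n + 1) (fun l => ⟨0, r_pos l⟩) z) n = ⟨0, r_pos n⟩ := by
        rw [splice_ge le_rfl, splice_lt (by omega)]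
      rw [idx_succ, idx_splice, h1]
      show pos n (idx n lastc) 0 ≤ idx (n + 1) z
      rw [pos_dropped (hlast n)]
      have h2 := hz (n + 1)
      have h3 := idx_lt n lastc
      rw [m_eq] at h3
      have h4 : fr (n + 1) ≤ idx (n + 1) z := h2
      rw [fr_succ] at h4
      omega
    · rw [splice_ge (by omega), splice_ge hl]
  have hmeas : ∀ l, MeasurableSet {z : Y | fr l ≤ idx l z} := fun l =>
    measurable_idx l (measurableSet_le measurable_const measurable_id)
  have hreal : ∀ l, ν.real {z : Y | fr l ≤ idx l z} = rho l := by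
    intro l
    have h1 : {z : Y | fr l ≤ idx l z} = {z : Y | idx l z < fr l}ᶜ := by
      ext z
      simp
    have hms : MeasurableSet {z : Y | idx l z < fr l} :=
      measurable_idx l (measurableSet_lt measurable_id measurable_const)
    rw [h1, measureReal_compl hms, h.real_lt _ _ (by rw [m_eq]; omega)]
    have hm : (m l : ℝ) ≠ 0 := by
      have := m_pos l
      positivity
    have h2 : ν.real univ = 1 := by simp
    rw [h2, rho, eq_div_iff hm, sub_mul, div_mul_cancel₀ _ hm, m_eq]
    push_cast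
    ring
  have hanti : Antitone fun l => {z : Y | fr l ≤ idx l z} := by
    refine antitone_nat_of_succ_le fun l z hz => ?_
    exact ((pos_active_iff (idx_lt l z) (z l).2).mp hz).1
  have hlim : Tendsto (fun l => ν.real {z : Y | fr l ≤ idx l z}) atTop
      (𝓝 (ν.real (⋂ l, {z : Y | fr l ≤ idx l z}))) :=
    (ENNReal.tendsto_toReal (measure_ne_top _ _)).comp
      (tendsto_measure_iInter_atTop (fun l => (hmeas l).nullMeasurableSet) hanti
        ⟨0, measure_ne_top _ _⟩)
  simp_rw [hreal] at hlim
  have h1 := tendsto_nhds_unique hlim tendsto_rho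
  intro h0
  rw [hE, univ_inter] at h0
  have h2 : ν (⋂ l, {z : Y | fr l ≤ idx l z}) = 0 := measure_mono_null hJ h0
  have h3 : ν.real (⋂ l, {z : Y | fr l ≤ idx l z}) = 0 := by
    rw [Measure.real, h2, ENNReal.toReal_zero]
  rw [h3] at h1
  have := alpha_ge
  linarith

end Pool.Agent.H180.TF
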