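import Pool.Agent.H180.TF.Alg

/-! The triangular algebra. -/

open Finset

namespace Pool.Agent.H180.TF

open Pool.Agent.Helper741.UHF Pool.Agent.H180.UP

/-- upper triangular matrices -/
def upper (n : ℕ) : Subalgebra ℂ (Matrix (Fin n) (Fin n) ℂ) where
  carrier := {M | ∀ p q, q < p → M p q = 0}
  mul_mem' := by
    intro M N hM hN p q hqp
    rw [Matrix.mul_apply]
    refine Finset.sum_eq_zero fun k _ => ?_
    rcases lt_or_ge k p with hk | hk
    · rw [hM p k hk, zero_mul]
    · rw [hN k q (hqp.trans_le hk), mul_zero]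
  add_mem' := by
    intro M N hM hN p q hqp
    rw [Matrix.add_apply, hM p q hqp, hN p q hqp, add_zero]
  algebraMap_mem' := by
    intro c p q hqp
    rw [Matrix.algebraMap_matrix_apply, if_neg hqp.ne']

variable {A : Type} [CStarAlgebra A] {f : ℕ → ℕ → ℕ → A}

/-- the triangular algebra of level `l` -/
noncomputable def Tl (h : MUSys r f) (l : ℕ) : Subalgebra ℂ A :=
  (upper (m l)).map (homU (munits_Un h l)).toAlgHom

theorem mem_Tl (h : MUSys r f) (l : ℕ) (a : A) :
    a ∈ Tl h l ↔ ∃ M, (∀ p q, q < p → M p q = 0) ∧ homU (munits_Un h l) M = a := Iff.rfl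

theorem Un_mem_Tl (h : MUSys r f) {l : ℕ} {p q : Fin (m l)} (hpq : p ≤ q) :
    Un f l p q ∈ Tl h l := by
  refine ⟨Matrix.single p q 1, ?_, homU_single (munits_Un h l) p q⟩
  intro p' q' h'
  rw [Matrix.single_apply, if_neg]
  rintro ⟨rfl, rfl⟩
  exact absurd hpq (not_le.mpr h')

theorem Tl_mono (h : MUSys r f) : Monotone (Tl h) := by
  refine monotone_nat_of_le_succ fun l => ?_
  intro a ha
  obtain ⟨M, hM, rfl⟩ := (mem_Tl h l a).mp ha
  rw [homU_apply]
  refine sum_mem fun p _ => sum_mem fun q _ => ?_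
  by_cases hpq : q < p
  · rw [hM p q hpq, zero_smul]
    exact zero_mem _
  · refine Subalgebra.smul_mem _ ?_ _
    rw [Un_step h]
    refine sum_mem fun c _ => Un_mem_Tl h ?_
    rcases (not_lt.mp hpq).lt_or_eq with h1 | h1
    · exact le_of_lt (pos_mono q.2 c.2 h1 : pos l p c < pos l q c)
    · rw [h1]

/-- the triangular algebra -/
noncomputable def Talg (h : MUSys r f) : Subalgebra ℂ A := (⨆ l, Tl h l).topologicalClosure

theorem mem_Talg (h : MUSys r f) (a : A) :
    a ∈ Talg h ↔ ∀ ε > 0, ∃ l, ∃ b ∈ Tl h l, ‖a - b‖ < ε := by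
  have hdir : Directed (· ≤ ·) (Tl h) := (Tl_mono h).directed_le
  have h1 : ((⨆ n, Tl h n : Subalgebra ℂ A) : Set A) = ⋃ n, (Tl h n : Set A) :=
    Subalgebra.coe_iSup_of_directed hdir
  have h2 : a ∈ Talg h ↔ a ∈ closure (⋃ n, (Tl h n : Set A)) := by
    rw [← h1]
    rfl
  rw [h2, Metric.mem_closure_iff]
  constructor
  · intro h3 ε hε
    obtain ⟨b, hb, hab⟩ := h3 ε hε
    obtain ⟨l, hl⟩ := Set.mem_iUnion.mp hb
    exact ⟨l, b, hl, by rwa [← dist_eq_norm]⟩
  · intro h3 ε hε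
    obtain ⟨l, b, hb, hab⟩ := h3 ε hε
    exact ⟨b, Set.mem_iUnion.mpr ⟨l, hb⟩, by rwa [dist_eq_norm]⟩

theorem Tl_le (h : MUSys r f) (l : ℕ) : Tl h l ≤ Talg h := by
  intro a ha
  rw [mem_Talg]
  intro ε hε
  exact ⟨l, a, ha, by rwa [sub_self, norm_zero]⟩

theorem isClosed_Talg (h : MUSys r f) : IsClosed (Talg h : Set A) :=
  Subalgebra.isClosed_topologicalClosure _

theorem V_mem_T (h : MUSys r f) {l : ℕ} {x y : Y} (hxy : idx l x ≤ idx l y) :
    V f l x y ∈ Talg h := Tl_le h l (Un_mem_Tl h (show fidx l x ≤ fidx l y from hxy))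

theorem mem_diagonal (T : Subalgebra ℂ A) (a : A) : a ∈ diagonal T ↔ a ∈ T ∧ star a ∈ T := Iff.rfl

theorem homU_diag_mem (h : MUSys r f) (l : ℕ) (c : Fin (m l) → ℂ) :
    homU (munits_Un h l) (Matrix.diagonal c) ∈ diagonal (Talg h) := by
  have key : ∀ c : Fin (m l) → ℂ, homU (munits_Un h l) (Matrix.diagonal c) ∈ Talg h := fun c =>
    Tl_le h l ⟨Matrix.diagonal c, fun p q hpq => Matrix.diagonal_apply_ne _ hpq.ne', rfl⟩
  refine ⟨key c, ?_⟩
  rw [← map_star, Matrix.star_eq_conjTranspose, Matrix.diagonal_conjTranspose]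
  exact key _

theorem Un_diag_mem (h : MUSys r f) (l : ℕ) (p : Fin (m l)) : Un f l p p ∈ diagonal (Talg h) := by
  have h1 := homU_diag_mem h l (Pi.single p 1)
  rwa [Matrix.diagonal_single, homU_single] at h1

theorem V_diag_mem (h : MUSys r f) (l : ℕ) (z : Y) : V f l z z ∈ diagonal (Talg h) :=
  Un_diag_mem h l _

/-! ### The slice maps -/

theorem norm_slice' (h : MUSys r f) (j a b : ℕ) (z : A) : ‖slice r f j a b z‖ ≤ ‖z‖ := by
  let := CStarAlgebra.spectralOrder A
  let := CStarAlgebra.spectralOrderedRing A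
  exact norm_slice_le h j a b z

/-- compose the slices over the sites `n, ..., n + t - 1` -/
noncomputable def Sc (f : ℕ → ℕ → ℕ → A) (n : ℕ) : ℕ → (A →ₗ[ℂ] A)
  | 0 => LinearMap.id
  | t + 1 => (Sc f n t).comp (slice r f (n + t) 0 0)

theorem Sc_succ (n t : ℕ) (z : A) : Sc f n (t + 1) z = Sc f n t (slice r f (n + t) 0 0 z) := rfl

theorem norm_Sc (h : MUSys r f) (n t : ℕ) (z : A) : ‖Sc f n t z‖ ≤ ‖z‖ := by
  induction t generalizing z with
  | zero => exact le_rfl
  | succ t ih => exact (ih _).trans (norm_slice' h _ _ _ _)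

theorem Sc_star (h : MUSys r f) (n t : ℕ) (z : A) : star (Sc f n t z) = Sc f n t (star z) := by
  induction t generalizing z with
  | zero => rfl
  | succ t ih => rw [Sc_succ, Sc_succ, ih, slice_star h]

theorem levl_commute (h : MUSys r f) {n j : ℕ} (hj : n ≤ j) {a : A} (ha : a ∈ levl h n)
    (c d : ℕ) : Commute (f j c d) a := by
  obtain ⟨M, rfl⟩ := (mem_levl h n a).mp ha
  rw [homU_apply]
  exact Commute.sum_right _ _ _ fun p _ => Commute.sum_right _ _ _ fun q _ =>
    (Un_commute h n j hj p q c d).smul_right _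

theorem Sc_fix (h : MUSys r f) (n t : ℕ) {a : A} (ha : a ∈ levl h n) : Sc f n t a = a := by
  induction t with
  | zero => rfl
  | succ t ih =>
    rw [Sc_succ, slice_of_commute h _ 0 0 (r_pos _) a
      (fun c d => levl_commute h (by omega) ha c d), if_pos rfl, ih]

theorem slice_homU (h : MUSys r f) (l : ℕ) (M : Matrix (Fin (m (l + 1))) (Fin (m (l + 1))) ℂ) :
    slice r f l 0 0 (homU (munits_Un h (l + 1)) M) = homU (munits_Un h l)
      (M.submatrix (fun p => posEquiv l (p, ⟨0, r_pos l⟩)) fun p => posEquiv l (p, ⟨0, r_pos l⟩)) := by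
  have h1 : homU (munits_Un h (l + 1)) M = ∑ P : Fin (m l) × Fin (r l),
      ∑ Q : Fin (m l) × Fin (r l), M (posEquiv l P) (posEquiv l Q) •
        (Un f l P.1 Q.1 * f l P.2 Q.2) := by
    rw [homU_apply, ← (posEquiv l).sum_comp]
    refine Finset.sum_congr rfl fun P _ => ?_
    rw [← (posEquiv l).sum_comp]
    refine Finset.sum_congr rfl fun Q _ => ?_
    rw [Un_succ]
  have h2 : ∀ P Q : Fin (m l) × Fin (r l), slice r f l 0 0 (Un f l P.1 Q.1 * f l P.2 Q.2) =
      if (P.2 : ℕ) = 0 ∧ (Q.2 : ℕ) = 0 then Un f l P.1 Q.1 else 0 := by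
    intro P Q
    rw [slice_mul_left l 0 0 _ _ (fun c d => Un_commute h l l le_rfl _ _ _ _),
      slice_e_self h l 0 0 _ _ (r_pos l) (r_pos l) P.2.2 Q.2.2]
    by_cases hh : (P.2 : ℕ) = 0 ∧ (Q.2 : ℕ) = 0
    · rw [if_pos hh, if_pos ⟨hh.1.symm, hh.2.symm⟩, mul_one]
    · rw [if_neg hh, if_neg (fun h3 => hh ⟨h3.1.symm, h3.2.symm⟩), mul_zero]
  rw [h1, map_sum, homU_apply, Fintype.sum_prod_type]
  refine Finset.sum_congr rfl fun p _ => ?_
  rw [Finset.sum_eq_single (⟨0, r_pos l⟩ : Fin (r l))]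
  · rw [map_sum, Fintype.sum_prod_type]
    refine Finset.sum_congr rfl fun q _ => ?_
    rw [Finset.sum_eq_single (⟨0, r_pos l⟩ : Fin (r l))]
    · rw [map_smul, h2, if_pos ⟨rfl, rfl⟩]
      rfl
    · intro d _ hd
      rw [map_smul, h2, if_neg, smul_zero]
      rintro ⟨_, h3⟩
      exact hd (Fin.ext h3)
    · intro h3
      exact absurd (Finset.mem_univ _) h3
  · intro c _ hc
    rw [map_sum]
    refine Finset.sum_eq_zero fun Q _ => ?_
    rw [map_smul, h2, if_neg, smul_zero]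
    rintro ⟨h3, _⟩
    exact hc (Fin.ext h3)
  · intro h3
    exact absurd (Finset.mem_univ _) h3

theorem Sc_tri (h : MUSys r f) (n t : ℕ) {b : A} (hb : b ∈ Tl h (n + t)) :
    Sc f n t b ∈ Tl h n := by
  induction t generalizing b with
  | zero => exact hb
  | succ t ih =>
    obtain ⟨M, hM, rfl⟩ := (mem_Tl h (n + (t + 1)) b).mp hb
    rw [Sc_succ]
    refine ih ?_
    rw [mem_Tl]
    refine ⟨_, ?_, (slice_homU h (n + t) M).symm⟩
    intro p q hqp
    exact hM _ _ (pos_mono p.2 (r_pos (n + t)) hqp)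

/-! ### The diagonal -/

theorem norm_homU_le (h : MUSys r f) (l : ℕ) (M : Matrix (Fin (m l)) (Fin (m l)) ℂ) {K : ℝ}
    (hM : ∀ p q, ‖M p q‖ ≤ K) : ‖homU (munits_Un h l) M‖ ≤ (m l : ℝ) ^ 2 * K := by
  rw [homU_apply]
  have h1 : ∀ p, ‖∑ q, M p q • Un f l p q‖ ≤ m l * K := by
    intro p
    refine (norm_sum_le _ _).trans ((Finset.sum_le_sum (g := fun _ => K) fun q _ => ?_).trans
      (le_of_eq ?_))
    · rw [norm_smul]
      have h2 := (munits_Un h l).norm_le p q
      have h3 := norm_nonneg (M p q)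
      calc ‖M p q‖ * ‖Un f l p q‖ ≤ ‖M p q‖ * 1 := by gcongr
        _ ≤ K := by rw [mul_one]; exact hM p q
    · rw [Finset.sum_const, Finset.card_univ, Fintype.card_fin, nsmul_eq_mul]
  refine (norm_sum_le _ _).trans ((Finset.sum_le_sum fun p _ => h1 p).trans (le_of_eq ?_))
  rw [Finset.sum_const, Finset.card_univ, Fintype.card_fin, nsmul_eq_mul]
  ring

/-- The diagonal is the closure of the diagonals of the levels. -/
theorem exists_diag_near [Nontrivial A] (h : MUSys r f) {a : A} (ha : a ∈ diagonal (Talg h))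
    {ε : ℝ} (hε : 0 < ε) :
    ∃ (l : ℕ) (c : Fin (m l) → ℂ), ‖a - homU (munits_Un h l) (Matrix.diagonal c)‖ < ε := by
  obtain ⟨ha1, ha2⟩ := ha
  obtain ⟨n, b₀, hb₀, hab₀⟩ := (mem_Talg h a).mp ha1 (ε / 4) (by positivity)
  set K : ℝ := 1 + 2 * (m n : ℝ) ^ 2 with hK
  have hK0 : 0 < K := by positivity
  set η : ℝ := ε / 4 / K with hη
  have hη0 : 0 < η := by positivity
  have hηK : η * K = ε / 4 := div_mul_cancel₀ _ hK0.ne'
  obtain ⟨k₁, b₁, hb₁, hab₁⟩ := (mem_Talg h a).mp ha1 η hη0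
  obtain ⟨k₂, b₂, hb₂, hab₂⟩ := (mem_Talg h (star a)).mp ha2 η hη0
  obtain ⟨t, ht⟩ := Nat.exists_eq_add_of_le (le_max_left n (max k₁ k₂))
  have hk1 : k₁ ≤ n + t := by
    rw [← ht]
    exact (le_max_left _ _).trans (le_max_right _ _)
  have hk2 : k₂ ≤ n + t := by
    rw [← ht]
    exact (le_max_right _ _).trans (le_max_right _ _)
  obtain ⟨M₁, hM₁, hs₁⟩ := (mem_Tl h n _).mp (Sc_tri h n t (Tl_mono h hk1 hb₁))
  obtain ⟨M₂, hM₂, hs₂⟩ := (mem_Tl h n _).mp (Sc_tri h n t (Tl_mono h hk2 hb₂))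
  have hb₀l : b₀ ∈ levl h n := by
    obtain ⟨M, _, rfl⟩ := (mem_Tl h n b₀).mp hb₀
    exact ⟨M, rfl⟩
  have e1 : ‖homU (munits_Un h n) (M₁ - star M₂)‖ ≤ 2 * η := by
    rw [map_sub, map_star, hs₁, hs₂, Sc_star h, ← map_sub]
    refine (norm_Sc h _ _ _).trans ?_
    have : b₁ - star b₂ = -(a - b₁) + star (star a - b₂) := by
      rw [star_sub, star_star]
      abel
    rw [this]
    refine (norm_add_le _ _).trans ?_
    rw [norm_neg, norm_star]
    linarith
  have e2 : ∀ p q, ‖(M₁ - Matrix.diagonal fun p => M₁ p p) p q‖ ≤ 2 * η := by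
    intro p q
    rw [Matrix.sub_apply]
    rcases lt_trichotomy p q with hpq | hpq | hpq
    · rw [Matrix.diagonal_apply_ne _ hpq.ne, sub_zero]
      have h3 := (norm_entry_le (munits_Un h n) (M₁ - star M₂) p q).trans e1
      rw [Matrix.sub_apply, Matrix.star_apply, hM₂ q p hpq, star_zero, sub_zero] at h3
      exact h3
    · subst hpq
      rw [Matrix.diagonal_apply_eq, sub_self, norm_zero]
      positivity
    · rw [hM₁ p q hpq, Matrix.diagonal_apply_ne _ hpq.ne', sub_zero, norm_zero]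
      positivity
  refine ⟨n, fun p => M₁ p p, ?_⟩
  have e3 : ‖Sc f n t b₁ - homU (munits_Un h n) (Matrix.diagonal fun p => M₁ p p)‖ ≤
      (m n : ℝ) ^ 2 * (2 * η) := by
    rw [← hs₁, ← map_sub]
    exact norm_homU_le h n _ e2
  have e4 : ‖b₀ - Sc f n t b₁‖ ≤ ε / 4 + η := by
    have : b₀ - Sc f n t b₁ = Sc f n t (b₀ - b₁) := by
      rw [map_sub, Sc_fix h n t hb₀l]
    rw [this]
    refine (norm_Sc h _ _ _).trans ?_
    have : b₀ - b₁ = -(a - b₀) + (a - b₁) := by abel
    rw [this]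
    refine (norm_add_le _ _).trans ?_
    rw [norm_neg]
    linarith
  have e5 : a - homU (munits_Un h n) (Matrix.diagonal fun p => M₁ p p) =
      (a - b₀) + (b₀ - Sc f n t b₁) +
        (Sc f n t b₁ - homU (munits_Un h n) (Matrix.diagonal fun p => M₁ p p)) := by abel
  rw [e5]
  refine (norm_add_le _ _).trans_lt ?_
  have e6 := norm_add_le (a - b₀) (b₀ - Sc f n t b₁)
  have e7 : η * (1 + 2 * (m n : ℝ) ^ 2) = ε / 4 := hηK
  nlinarith

/-- the diagonals of the levels, level after level -/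
theorem diag_step (h : MUSys r f) (l : ℕ) (c : Fin (m l) → ℂ) :
    ∃ c' : Fin (m (l + 1)) → ℂ, homU (munits_Un h l) (Matrix.diagonal c) =
      homU (munits_Un h (l + 1)) (Matrix.diagonal c') := by
  have hd : ∀ (l : ℕ) (c : Fin (m l) → ℂ), homU (munits_Un h l) (Matrix.diagonal c) =
      ∑ p, c p • Un f l p p := by
    intro l c
    rw [homU_apply]
    refine Finset.sum_congr rfl fun p _ => ?_
    rw [Finset.sum_eq_single p]
    · rw [Matrix.diagonal_apply_eq]
    · intro q _ hq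
      rw [Matrix.diagonal_apply_ne _ hq.symm, zero_smul]
    · intro h3
      exact absurd (Finset.mem_univ _) h3
  refine ⟨fun P => c ((posEquiv l).symm P).1, ?_⟩
  rw [hd, hd, ← (posEquiv l).sum_comp, Fintype.sum_prod_type]
  refine Finset.sum_congr rfl fun p _ => ?_
  simp only [Equiv.symm_apply_apply]
  rw [← Finset.smul_sum, ← Un_step h]

theorem homU_diagonal (h : MUSys r f) (l : ℕ) (c : Fin (m l) → ℂ) :
    homU (munits_Un h l) (Matrix.diagonal c) = ∑ p, c p • Un f l p p := by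
  rw [homU_apply]
  refine Finset.sum_congr rfl fun p _ => ?_
  rw [Finset.sum_eq_single p]
  · rw [Matrix.diagonal_apply_eq]
  · intro q _ hq
    rw [Matrix.diagonal_apply_ne _ hq.symm, zero_smul]
  · intro h3
    exact absurd (Finset.mem_univ _) h3

theorem diag_level (h : MUSys r f) {l k : ℕ} (hlk : l ≤ k) (c : Fin (m l) → ℂ) :
    ∃ c' : Fin (m k) → ℂ, homU (munits_Un h l) (Matrix.diagonal c) =
      homU (munits_Un h k) (Matrix.diagonal c') := by
  induction k, hlk using Nat.le_induction with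
  | base => exact ⟨c, rfl⟩
  | succ k _ ih =>
    obtain ⟨c', hc'⟩ := ih
    rw [hc']
    exact diag_step h k c'

/-- the dense part of the diagonal, from level `k` on -/
def DenseDiag (h : MUSys r f) (k : ℕ) : Set A :=
  {a | ∃ (l : ℕ) (_ : k ≤ l) (c : Fin (m l) → ℂ), a = homU (munits_Un h l) (Matrix.diagonal c)}

theorem diagonal_le_closure [Nontrivial A] (h : MUSys r f) (k : ℕ) {a : A}
    (ha : a ∈ diagonal (Talg h)) : a ∈ closure (DenseDiag h k) := by
  rw [Metric.mem_closure_iff]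
  intro ε hε
  obtain ⟨l, c, hc⟩ := exists_diag_near h ha hε
  obtain ⟨c', hc'⟩ := diag_level h (le_max_left l k) c
  exact ⟨_, ⟨max l k, le_max_right _ _, c', rfl⟩, by rw [dist_eq_norm, ← hc']; exact hc⟩

theorem isTAF [Nontrivial A] (h : MUSys r f)
    (hgen : (StarAlgebra.adjoin ℂ {x | ∃ j a b, x = f j a b}).topologicalClosure = ⊤) :
    IsTAF (theUHF h hgen) (Talg h) := by
  refine ⟨isClosed_Talg h, ?_, ?_⟩
  · intro a ha b hb
    have h1 : ∀ x ∈ DenseDiag h 0, ∀ y ∈ DenseDiag h 0, x * y = y * x := by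
      rintro _ ⟨l, _, c, rfl⟩ _ ⟨k, _, d, rfl⟩
      obtain ⟨c', hc'⟩ := diag_level h (le_max_left l k) c
      obtain ⟨d', hd'⟩ := diag_level h (le_max_right l k) d
      rw [hc', hd', ← map_mul, ← map_mul, Matrix.diagonal_mul_diagonal,
        Matrix.diagonal_mul_diagonal]
      congr 2
      funext p
      exact mul_comm _ _
    have h2 : ∀ x ∈ DenseDiag h 0, x * b = b * x := by
      intro x hx
      have hcl : IsClosed {y : A | x * y = y * x} := isClosed_eq (by fun_prop) (by fun_prop)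
      exact closure_minimal (fun y hy => h1 x hx y hy) hcl (diagonal_le_closure h 0 hb)
    have hcl : IsClosed {x : A | x * b = b * x} := isClosed_eq (by fun_prop) (by fun_prop)
    exact closure_minimal (fun x hx => h2 x hx) hcl (diagonal_le_closure h 0 ha)
  · rintro n a ⟨M, rfl⟩ hcomm
    have h1 : ∀ p q, p ≠ q → M p q = 0 := by
      intro p q hpq
      have h2 := hcomm (Un f n q q) (Un_diag_mem h n q) (Un_mem h n q q)
      have h3 := corner (munits_Un h n) M p q
      have h4 : Un f n p p * homU (munits_Un h n) M * Un f n q q = 0 := by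
        rw [mul_assoc]
        have h5 : (homU (munits_Un h n)) M * Un f n q q = Un f n q q * (homU (munits_Un h n)) M := h2
        rw [h5, ← mul_assoc, (munits_Un h n).mul, if_neg hpq, zero_mul]
      rw [h4] at h3
      exact (smul_eq_zero.mp h3.symm).resolve_right (mu_ne (munits_Un h n) p q)
    have h2 : M = Matrix.diagonal fun p => M p p := by
      ext p q
      rcases eq_or_ne p q with rfl | hpq
      · rw [Matrix.diagonal_apply_eq]
      · rw [h1 p q hpq, Matrix.diagonal_apply_ne _ hpq]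
    show homU (munits_Un h n) M ∈ _
    rw [h2]
    exact homU_diag_mem h n _

theorem stronglyMaximal [Nontrivial A] (h : MUSys r f)
    (hgen : (StarAlgebra.adjoin ℂ {x | ∃ j a b, x = f j a b}).topologicalClosure = ⊤) :
    StronglyMaximal (Talg h) := by
  refine (dense_levl h hgen).mono ?_
  intro a ha
  obtain ⟨n, M, rfl⟩ := Set.mem_iUnion.mp ha
  have key : ∀ p q : Fin (m n), ∀ c : ℂ, ∃ b ∈ Talg h, ∃ b' ∈ Talg h,
      c • Un f n p q = b + star b' := by
    intro p q c
    rcases le_total p q with hpq | hpq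
    · exact ⟨c • Un f n p q, Subalgebra.smul_mem _ (Tl_le h n (Un_mem_Tl h hpq)) _, 0, zero_mem _,
        by rw [star_zero, add_zero]⟩
    · refine ⟨0, zero_mem _, star c • Un f n q p,
        Subalgebra.smul_mem _ (Tl_le h n (Un_mem_Tl h hpq)) _, ?_⟩
      rw [star_smul, star_star, (munits_Un h n).str, zero_add]
  choose b hb b' hb' hbb using fun p q => key p q (M p q)
  refine ⟨∑ p, ∑ q, b p q, sum_mem fun p _ => sum_mem fun q _ => hb p q,
    ∑ p, ∑ q, b' p q, sum_mem fun p _ => sum_mem fun q _ => hb' p q, ?_⟩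
  show homU (munits_Un h n) M = _
  rw [homU_apply, star_sum, ← Finset.sum_add_distrib]
  refine Finset.sum_congr rfl fun p _ => ?_
  rw [star_sum, ← Finset.sum_add_distrib]
  exact Finset.sum_congr rfl fun q _ => hbb p q

end Pool.Agent.H180.TF
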